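import Pool.Agent.Full.Dict.Shape
import Pool.Agent.Full.Geo.Conn
import Pool.Agent.Full.Geo.SC
import Pool.Agent.Full.Geo.Label

/-!
# (S5): the dictionary at the four marks
-/

set_option autoImplicit false

namespace Full
open Function Relation Shape

/-- **(S5)** -/
theorem s5 : S5 := by
  intro S hS m hm n hn a hw
  have hs : S.Small n a.s := ⟨hn, fun v => Dict.small_s v⟩
  have hσ : ∀ j, 4 * a.σ j ≤ n := by
    intro j
    have h : (a.2 j : ℕ) < n / 4 := (a.2 j).2
    have h1 : a.σ j = (a.2 j : ℕ) := rfl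
    rw [h1]
    omega
  exact Dict.dict_shape hS m hn a hw (Shape.sc hS hs.two)
    (fun t ht u hu => Shape.tconn hS hs.two ht hu) (labCyc hS m hm hs.two hσ).mem
    (cycOk hS m hm hs.two hσ)

end Full
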