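import Pool.Agent.Full.Dict.Four
import Pool.Agent.Full.Def.Shape
import Pool.Agent.Full.Disc.Next

/-!
# Closed walls with four ends

`IsW T g E w`: a closed wall of the region with the set `E` of ends.  Between two consecutive ends `u` and
`v = (next g)^[K] u` the wall joins `(next g)^[k] u` with `(next g)^[k+1] u` for odd `k`, and `K` is odd
(`IsW.pair`).  The wired corners of this part are the tails of `(next g)^[k] u`, `k` odd (`IsW.wd_iff`).
`IsW.marks`: the four ends are `Marks`.
-/

set_option autoImplicit false

namespace Full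
open Function Relation

variable {τ : Type*} {T : Finset τ} {g w : Half τ → Half τ}

/-! ### corners: at most one boundary half edge starts at a corner -/

/-- rotation reaches the boundary half edge `b` -/
def WRch (g : Half τ → Half τ) (x b : Half τ) : Prop :=
  g b = b ∧ ∃ n, (rot g)^[n] x = b ∧ ∀ m < n, g ((rot g)^[m] x) ≠ (rot g)^[m] x

lemma WRch.step {x b : Half τ} (h : g x ≠ x) : WRch g x b ↔ WRch g (rot g x) b := by
  constructor
  · rintro ⟨hb, n, h1, h2⟩
    refine ⟨hb, ?_⟩
    cases n with
    | zero =>
      exfalso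
      have h3 : x = b := h1
      rw [h3] at h
      exact h hb
    | succ n =>
      exact ⟨n, h1, fun m hm => h2 (m + 1) (by omega)⟩
  · rintro ⟨hb, n, h1, h2⟩
    refine ⟨hb, n + 1, h1, fun m hm => ?_⟩
    cases m with
    | zero => exact h
    | succ m => exact h2 m (by omega)

lemma rch_iff {x y b : Half τ} (h : EqvGen (Same g) x y) : WRch g x b ↔ WRch g y b := by
  induction h with
  | rel x y h =>
    obtain ⟨h1, rfl⟩ := h
    exact WRch.step h1
  | refl x => exact Iff.rfl
  | symm x y _ ih => exact ih.symm
  | trans x y z _ _ ih1 ih2 => exact ih1.trans ih2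

/-- at most one boundary half edge starts at a corner -/
lemma same_unique {x y : Half τ} (h : EqvGen (Same g) x y) (hx : g x = x) (hy : g y = y) : x = y := by
  have h1 : WRch g x y := (rch_iff h).2 ⟨hy, 0, rfl, fun m hm => absurd hm (Nat.not_lt_zero m)⟩
  obtain ⟨-, n, h2, h3⟩ := h1
  cases n with
  | zero => exact h2
  | succ n => exact absurd hx (h3 0 (Nat.succ_pos n))

lemma same_next (hG : Glu T g) {x : Half τ} (hx : g x = x) : EqvGen (Same g) (next g x) (rho x) :=
  eqv_next hG (fun _ _ h => h) hx

/-- at most one boundary half edge ends at a corner -/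
lemma same_unique' (hG : Glu T g) {x y : Half τ} (h : EqvGen (Same g) (rho x) (rho y)) (hx : g x = x)
    (hy : g y = y) : x = y := by
  have h1 : EqvGen (Same g) (next g x) (next g y) :=
    ((same_next hG hx).trans _ _ _ h).trans _ _ _ (same_next hG hy).symm
  exact hG.next_inj hx hy (same_unique h1 (hG.next_fix hx) (hG.next_fix hy))

/-! ### a part of the wall between two ends -/

/-- `v` is the first end after the end `u` -/
structure WPart (T : Finset τ) (g w : Half τ → Half τ) (u : Half τ) (K : ℕ) : Prop where
  bd : Bd T g u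
  lt : K < minimalPeriod (next g) u
  pos : 0 < K
  left : w u = u
  right : w ((next g)^[K] u) = (next g)^[K] u
  ne : ∀ k, 0 < k → k < K → w ((next g)^[k] u) ≠ (next g)^[k] u

namespace WPart
variable {u : Half τ} {K : ℕ}

lemma iter_ne (h : WPart T g w u K) {k l : ℕ} (hk : k ≤ K) (hl : l ≤ K) (hkl : k ≠ l) :
    (next g)^[k] u ≠ (next g)^[l] u := fun h1 =>
  hkl ((iterate_eq_iterate_iff_of_lt_minimalPeriod (f := next g) (x := u) (by have := h.lt; omega)
    (by have := h.lt; omega)).1 h1)

/-- the wall joins neighbours in pairs -/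
theorem pair (h : WPart T g w u K) (hG : Glu T g) (hW : Wall T g w) : ∀ k, 0 < k → k < K →
    (Odd k → w ((next g)^[k] u) = (next g)^[k + 1] u) ∧
    (Even k → w ((next g)^[k] u) = (next g)^[k - 1] u) := by
  intro k
  induction k using Nat.strong_induction_on with
  | _ k ih =>
    intro hk hkK
    have hb := hG.bd_iter h.bd k
    have hev : Even k → w ((next g)^[k] u) = (next g)^[k - 1] u := by
      intro he
      have h2 : 2 ≤ k := by
        obtain ⟨m, hm⟩ := he; omega
      have h3 := (ih (k - 1) (by omega) (by omega) (by omega)).1 (by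
        rw [Nat.odd_sub' (by omega)]
        simpa using he)
      rw [show k - 1 + 1 = k by omega] at h3
      rw [← h3, hW.inv]
    refine ⟨fun ho => ?_, hev⟩
    rcases hW.near _ hb with h1 | h1 | h1
    · exact absurd h1 (h.ne k hk hkK)
    · rw [iterate_succ_apply']; exact h1
    · exfalso
      -- `w (y k) = y (k - 1)`
      have hu : g (w ((next g)^[k] u)) = w ((next g)^[k] u) := by
        by_contra hne
        have h2 := hW.ext _ hne
        rw [hW.inv] at h2
        apply hne
        have h3 := congrArg g h2
        rw [hG.inv, hb.2] at h3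
        rw [← h3, hb.2]
      have h2 : w ((next g)^[k] u) = (next g)^[k - 1] u := by
        refine hG.next_inj hu (hG.bd_iter h.bd (k - 1)).2 ?_
        rw [← h1, ← iterate_succ_apply' (next g) (k - 1) u, show (k - 1).succ = k by omega]
      have h3 : (next g)^[k] u = w ((next g)^[k - 1] u) := by rw [← h2, hW.inv]
      rcases Nat.eq_or_lt_of_le (show 1 ≤ k from hk) with h4 | h4
      · rw [← h4] at h3
        have h5 : (next g)^[1] u = (next g)^[0] u := by
          rw [h3]; exact h.left
        exact h.iter_ne (k := 1) (l := 0) (by omega) (by omega) (by omega) h5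
      · have h5 := (ih (k - 1) (by omega) (by omega) (by omega)).2 (by
          rw [Nat.even_sub' (by omega)]
          simpa using ho)
        rw [h5] at h3
        exact h.iter_ne (k := k) (l := k - 1 - 1) (by omega) (by omega) (by omega) h3

/-- the number of half edges between two consecutive ends is even -/
theorem odd (h : WPart T g w u K) (hG : Glu T g) (hW : Wall T g w) : Odd K := by
  by_contra hK
  rw [Nat.not_odd_iff_even] at hK
  have hpos := h.pos
  have h2 : 2 ≤ K := by obtain ⟨m, hm⟩ := hK; omega
  have h3 := (h.pair hG hW (K - 1) (by omega) (by omega)).1 (by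
    rw [Nat.odd_sub' (by omega)]
    simpa using hK)
  rw [show K - 1 + 1 = K by omega] at h3
  have h4 : (next g)^[K - 1] u = (next g)^[K] u := by
    rw [← h.right, ← h3, hW.inv]
  exact h.iter_ne (k := K - 1) (l := K) (by omega) (by omega) (by omega) h4

/-- the wired corners -/
theorem wd (h : WPart T g w u K) (hG : Glu T g) (hW : Wall T g w) : ∀ k, k ≤ K → Odd k →
    Wd T g w (rho u) ((next g)^[k] u) := by
  have hr : ∀ x y, Same g x y → (Same g x y ∨ Wire T g w x y) := fun _ _ h => Or.inl h
  intro k
  induction k using Nat.strong_induction_on with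
  | _ k ih =>
    intro hk ho
    rcases Nat.lt_or_ge k 2 with h1 | h1
    · have h2 : k = 1 := by obtain ⟨m, hm⟩ := ho; omega
      subst h2
      exact (eqv_next hG hr h.bd.2).symm
    · have ho' : Odd (k - 2) := by
        rw [Nat.odd_sub h1]
        simpa using ho
      have h2 : 0 < k - 2 := by obtain ⟨m, hm⟩ := ho'; omega
      have h3 := ih (k - 2) (by omega) (by omega) ho'
      have h4 := (h.pair hG hW (k - 2) h2 (by omega)).1 ho'
      have h5 : Wd T g w ((next g)^[k - 2] u) (rho (w ((next g)^[k - 2] u))) :=
        EqvGen.rel _ _ (Or.inr ⟨hG.bd_iter h.bd _, by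
          rw [h4, iterate_succ_apply'], rfl⟩)
      rw [h4] at h5
      have h6 : Wd T g w (next g ((next g)^[k - 2 + 1] u)) (rho ((next g)^[k - 2 + 1] u)) :=
        eqv_next hG hr (hG.bd_iter h.bd _).2
      rw [← iterate_succ_apply' (next g), show (k - 2 + 1).succ = k by omega] at h6
      exact (h3.trans _ _ _ h5).trans _ _ _ h6.symm

/-- the wired corners of the part -/
theorem wd_iff (h : WPart T g w u K) (hG : Glu T g) (hW : Wall T g w) {x : Half τ} :
    Wd T g w (rho u) x ↔ ∃ k, k ≤ K ∧ Odd k ∧ EqvGen (Same g) ((next g)^[k] u) x := by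
  constructor
  · have key : ∀ a b, Wd T g w a b → ((∃ k, k ≤ K ∧ Odd k ∧ EqvGen (Same g) ((next g)^[k] u) a) ↔
        ∃ k, k ≤ K ∧ Odd k ∧ EqvGen (Same g) ((next g)^[k] u) b) := by
      intro a b hab
      induction hab with
      | rel a b hab =>
        rcases hab with hab | ⟨ha, hwa, rfl⟩
        · constructor
          · rintro ⟨k, h1, h2, h3⟩
            exact ⟨k, h1, h2, h3.trans _ _ _ (EqvGen.rel _ _ hab)⟩
          · rintro ⟨k, h1, h2, h3⟩
            exact ⟨k, h1, h2, h3.trans _ _ _ (EqvGen.rel _ _ hab).symm⟩
        · constructor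
          · rintro ⟨k, h1, h2, h3⟩
            have h4 := same_unique h3 (hG.bd_iter h.bd k).2 ha.2
            subst h4
            have hk0 : 0 < k := by obtain ⟨m, hm⟩ := h2; omega
            rcases Nat.eq_or_lt_of_le h1 with h5 | h5
            · exfalso
              rw [h5, h.right, ← iterate_succ_apply' (next g)] at hwa
              have h6 : K + 1 ≤ minimalPeriod (next g) u := h.lt
              rcases Nat.eq_or_lt_of_le h6 with h7 | h7
              · have h8 : (next g)^[K + 1] u = u := by rw [h7]; exact iterate_minimalPeriod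
                rw [Nat.succ_eq_add_one, h8] at hwa
                exact h.iter_ne (k := K) (l := 0) le_rfl (Nat.zero_le _) (by omega) hwa
              · have := (iterate_eq_iterate_iff_of_lt_minimalPeriod (f := next g) (x := u)
                  (m := K) (n := K + 1) (by omega) h7).1 hwa
                omega
            · have h6 := (h.pair hG hW k hk0 h5).1 h2
              have hK := h.odd hG hW
              have h7 : k + 2 ≤ K := by
                obtain ⟨m, hm⟩ := h2
                obtain ⟨m', hm'⟩ := hK
                omega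
              refine ⟨k + 2, h7, ?_, ?_⟩
              · rw [Nat.odd_add]
                simpa using h2
              · rw [h6, iterate_succ_apply']
                exact same_next hG (hG.bd_iter h.bd _).2
          · rintro ⟨k, h1, h2, h3⟩
            have hk0 : 0 < k := by obtain ⟨m, hm⟩ := h2; omega
            have hb : Bd T g (w a) := by rw [hwa]; exact hG.next_bd ha
            -- `w a = y (k - 1)`
            have h4 : (next g)^[k - 1] u = w a := by
              refine same_unique' hG ?_ (hG.bd_iter h.bd _).2 hb.2
              have h5 := same_next hG (hG.bd_iter h.bd (k - 1)).2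
              rw [← iterate_succ_apply' (next g), show (k - 1).succ = k by omega] at h5
              exact h5.symm.trans _ _ _ h3
            rcases Nat.lt_or_ge k 2 with h5 | h5
            · exfalso
              have h6 : k = 1 := by omega
              subst h6
              have h7 : u = w a := h4
              have h8 : a = u := by
                have h9 := congrArg w h7
                rw [hW.inv, h.left] at h9
                exact h9.symm
              subst h8
              rw [h.left] at hwa
              have h9 := h.iter_ne (k := 0) (l := 1) (Nat.zero_le _) h1 (by omega)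
              exact h9 hwa
            · have hev : Even (k - 1) := by
                rw [Nat.even_sub' (by omega)]
                simpa using h2
              have h6 := (h.pair hG hW (k - 1) (by omega) (by omega)).2 hev
              have h7 : a = (next g)^[k - 1 - 1] u := by
                rw [← h6, h4, hW.inv]
              refine ⟨k - 1 - 1, by omega, ?_, ?_⟩
              · rw [show k - 1 - 1 = k - 2 by omega, Nat.odd_sub h5]
                simpa using h2
              · rw [h7]
                exact EqvGen.refl _
      | refl a => exact Iff.rfl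
      | symm a b _ ih => exact ih.symm
      | trans a b c _ _ ih1 ih2 => exact ih1.trans ih2
    intro hx
    refine (key _ _ hx).1 ⟨1, h.pos, odd_one, ?_⟩
    exact same_next hG h.bd.2
  · rintro ⟨k, h1, h2, h3⟩
    refine (h.wd hG hW k h1 h2).trans _ _ _ ?_
    exact EqvGen.mono (fun _ _ h => Or.inl h) _ _ h3

/-- the half edges after `u`, up to the next end -/
lemma mem_btw (h : WPart T g w u K) {x : Half τ} :
    (x ∈ btw g u ((next g)^[K] u) ∨ x = (next g)^[K] u) ↔ ∃ k, 0 < k ∧ k ≤ K ∧ x = (next g)^[k] u := by
  constructor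
  · rintro (⟨k, h1, rfl, h2⟩ | rfl)
    · refine ⟨k, h1, ?_, rfl⟩
      by_contra h3
      exact h2 K h.pos (by omega) rfl
    · exact ⟨K, h.pos, le_rfl, rfl⟩
  · rintro ⟨k, h1, h2, rfl⟩
    rcases Nat.eq_or_lt_of_le h2 with h3 | h3
    · exact Or.inr (by rw [h3])
    · refine Or.inl ⟨k, h1, rfl, fun i _ h5 h6 => ?_⟩
      exact h.iter_ne (k := i) (l := K) (by omega) le_rfl (by omega) h6

end WPart

/-! ### four ends -/

/-- positions of the marks on the cycle of the boundary -/
lemma Cyc4.positions {e : Fin 4 → Half τ} (h : Cyc4 g e) : ∃ p : ℕ → ℕ, p 0 = 0 ∧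
    p 4 = minimalPeriod (next g) (e 0) ∧ (∀ i < 4, p i < p (i + 1)) ∧
    ∀ i : Fin 4, (next g)^[p i] (e 0) = e i := by
  obtain ⟨a, b, c, h0, h1, h2, h3, e1, e2, e3⟩ := h
  refine ⟨fun i => if i = 0 then 0 else if i = 1 then a else if i = 2 then b else if i = 3 then c else
    minimalPeriod (next g) (e 0), rfl, rfl, fun i hi => ?_, fun i => ?_⟩
  · interval_cases i
    · exact h0
    · exact h1
    · exact h2
    · exact h3
  · fin_cases i
    · rfl
    · exact e1
    · exact e2
    · exact e3

section four
variable {e : Fin 4 → Half τ}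

/-- every boundary half edge is on the cycle of `u` -/
def OneCycle (T : Finset τ) (g : Half τ → Half τ) (u : Half τ) : Prop :=
  ∀ x, Bd T g x → ∃ k, (next g)^[k] u = x

theorem IsW.part (hG : Glu T g) (hW : IsW T g (Set.range e) w) (hb : ∀ i, Bd T g (e i))
    (hC : Cyc4 g e) : ∃ K : Fin 4 → ℕ, (∀ i, WPart T g w (e i) (K i)) ∧
      (∀ i, (next g)^[K i] (e i) = e (i + 1)) ∧
      ∀ k < minimalPeriod (next g) (e 0), ∃ i, ∃ l < K i, (next g)^[k] (e 0) = (next g)^[l] (e i) := by
  obtain ⟨p, p0, p4, hp, he⟩ := hC.positions
  set N := minimalPeriod (next g) (e 0) with hN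
  have hper : e 0 ∈ periodicPts (next g) := hG.next_periodic (hb 0)
  have hstep : ∀ i < 4, p i < p (i + 1) := hp
  have hle : ∀ i, i ≤ 4 → p i ≤ N := by
    intro i hi
    rw [← p4]
    have h0 := hstep 0 (by omega)
    have h1 := hstep 1 (by omega)
    have h2 := hstep 2 (by omega)
    have h3 := hstep 3 (by omega)
    simp only [zero_add, Nat.reduceAdd] at h0 h1 h2 h3
    interval_cases i <;> omega
  have hlt : ∀ i, i < 4 → p i < N := fun i hi => (hstep i hi).trans_le (hle (i + 1) hi)
  -- periods
  have hNi : ∀ i : Fin 4, minimalPeriod (next g) (e i) = N := by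
    intro i
    rw [← he i, minimalPeriod_apply_iterate hper]
  have hends : ∀ x, Bd T g x → (w x = x ↔ x ∈ Set.range e) := hW.ends
  -- iterates of the marks
  have hit : ∀ (i : Fin 4) k, (next g)^[k] (e i) = (next g)^[p i + k] (e 0) := by
    intro i k
    rw [← he i, ← iterate_add_apply, add_comm k]
  have hinj : ∀ {k l}, k < N → l < N → (next g)^[k] (e 0) = (next g)^[l] (e 0) → k = l :=
    fun hk hl h => (iterate_eq_iterate_iff_of_lt_minimalPeriod hk hl).1 h
  obtain ⟨K, hK⟩ : ∃ K : Fin 4 → ℕ, ∀ i, K i = p ((i : ℕ) + 1) - p i := ⟨_, fun _ => rfl⟩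
  have hnext : ∀ i : Fin 4, (next g)^[K i] (e i) = e (i + 1) := by
    intro i
    have h1 := hstep i i.2
    rw [hit i, hK i, show p i + (p ((i : ℕ) + 1) - p i) = p ((i : ℕ) + 1) by omega]
    fin_cases i
    · exact he 1
    · exact he 2
    · exact he 3
    · show (next g)^[p 4] (e 0) = e 0
      rw [p4]; exact iterate_minimalPeriod
  refine ⟨K, fun i => ?_, hnext, ?_⟩
  · have h1 := hstep i i.2
    have h2 := hle ((i : ℕ) + 1) i.2
    have hKi := hK i
    refine ⟨hb i, ?_, by omega, ?_, ?_, ?_⟩
    · rw [hNi]
      rcases Nat.eq_zero_or_pos (p i) with h3 | h3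
      · -- then `i = 0`
        have h4 : p ((i : ℕ) + 1) < N := by
          have hi0 : (i : ℕ) = 0 := by
            by_contra hne
            have h5 : (next g)^[p i] (e 0) = (next g)^[0] (e 0) := by rw [h3]
            have h6 : 0 < p (i : ℕ) := by
              have h7 := hstep ((i : ℕ) - 1) (by have := i.2; omega)
              rw [show (i : ℕ) - 1 + 1 = i by omega] at h7
              omega
            omega
          rw [hi0]
          exact hlt 1 (by omega)
        omega
      · omega
    · exact (hends _ (hb i)).2 ⟨i, rfl⟩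
    · rw [hnext]
      exact (hends _ (hb _)).2 ⟨_, rfl⟩
    · intro k hk hkK h3
      rw [hends _ (hG.bd_iter (hb i) k)] at h3
      obtain ⟨j, hj⟩ := h3
      rw [hit i, ← he j] at hj
      have h4 : p (j : ℕ) = p (i : ℕ) + k := hinj (hlt j j.2) (by omega) hj
      -- `p i < p j < p (i + 1)`
      have h5 : ∀ a b : ℕ, a < b → b ≤ 4 → p a < p b := by
        intro a b hab hb4
        induction b with
        | zero => omega
        | succ b ih =>
          rcases Nat.eq_or_lt_of_le (show a ≤ b by omega) with h6 | h6
          · rw [h6]; exact hstep b (by omega)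
          · exact (ih h6 (by omega)).trans (hstep b (by omega))
      rcases lt_trichotomy (j : ℕ) (i : ℕ) with h6 | h6 | h6
      · have := h5 j i h6 (by have := i.2; omega)
        omega
      · rw [h6] at h4; omega
      · rcases Nat.eq_or_lt_of_le (show (i : ℕ) + 1 ≤ j from h6) with h7 | h7
        · rw [← h7] at h4; omega
        · have := h5 ((i : ℕ) + 1) j h7 (by have := j.2; omega)
          omega
  · intro k hk
    have h0 := hstep 0 (by omega)
    have h1 := hstep 1 (by omega)
    have h2 := hstep 2 (by omega)
    have h3 := hstep 3 (by omega)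
    simp only [zero_add, Nat.reduceAdd] at h0 h1 h2 h3
    have key : ∀ i : Fin 4, p i ≤ k → k < p ((i : ℕ) + 1) → ∃ i : Fin 4, ∃ l < K i,
        (next g)^[k] (e 0) = (next g)^[l] (e i) := by
      intro i h4 h5
      refine ⟨i, k - p i, by rw [hK]; omega, ?_⟩
      rw [hit i, show p i + (k - p i) = k by omega]
    rcases Nat.lt_or_ge k (p 1) with h4 | h4
    · exact key 0 (by show p 0 ≤ k; omega) h4
    rcases Nat.lt_or_ge k (p 2) with h5 | h5
    · exact key 1 h4 h5
    rcases Nat.lt_or_ge k (p 3) with h6 | h6
    · exact key 2 h5 h6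
    · exact key 3 h6 (by show k < p 4; omega)

theorem Cyc4.inj (h : Cyc4 g e) : Injective e := by
  obtain ⟨p, p0, p4, hp, he⟩ := h.positions
  have hlt : ∀ a b : ℕ, a < b → b ≤ 4 → p a < p b := by
    intro a b hab hb4
    induction b with
    | zero => omega
    | succ b ih =>
      rcases Nat.eq_or_lt_of_le (show a ≤ b by omega) with h6 | h6
      · rw [h6]; exact hp b (by omega)
      · exact (ih h6 (by omega)).trans (hp b (by omega))
  intro i j hij
  rw [← he i, ← he j] at hij
  have hi := hlt i 4 i.2 le_rfl
  have hj := hlt j 4 j.2 le_rfl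
  rw [p4] at hi hj
  have h1 := (iterate_eq_iterate_iff_of_lt_minimalPeriod hi hj).1 hij
  rcases lt_trichotomy (i : ℕ) (j : ℕ) with h2 | h2 | h2
  · have := hlt i j h2 (by have := j.2; omega)
    omega
  · exact Fin.ext h2
  · have := hlt j i h2 (by have := i.2; omega)
    omega

/-- **closed walls with four ends are marks** -/
theorem IsW.marks (hG : Glu T g) (hW : IsW T g (Set.range e) w) (hb : ∀ i, Bd T g (e i))
    (hC : Cyc4 g e) (h1 : OneCycle T g (e 0)) : Marks T g w e := by
  obtain ⟨K, hP, hK, hall⟩ := hW.part hG hb hC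
  have hw := hW.toWall
  refine ⟨fun x => ?_, fun i => ?_, hC.inj, ?_⟩
  · constructor
    · rintro ⟨hx, hwx⟩
      have hgx : g x = x := by
        by_contra h
        rw [hw.ext x h] at hwx
        exact h hwx
      obtain ⟨i, hi⟩ := (hW.ends x ⟨hx, hgx⟩).1 hwx
      exact ⟨i, hi.symm⟩
    · rintro ⟨i, rfl⟩
      exact ⟨(hb i).1, (hW.ends _ (hb i)).2 ⟨i, rfl⟩⟩
  · rw [← hK i]
    exact (hP i).wd hG hw _ le_rfl ((hP i).odd hG hw)
  · rintro x y ⟨hx, hwx, -⟩
    obtain ⟨k, hk⟩ := h1 x hx
    have hN : 0 < minimalPeriod (next g) (e 0) :=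
      minimalPeriod_pos_of_mem_periodicPts (hG.next_periodic (hb 0))
    obtain ⟨i, l, hl, h2⟩ := hall (k % minimalPeriod (next g) (e 0)) (Nat.mod_lt _ hN)
    rw [iterate_mod_minimalPeriod_eq, hk] at h2
    subst h2
    refine ⟨i, ?_⟩
    rcases Nat.eq_zero_or_pos l with h3 | h3
    · exfalso
      subst h3
      have h4 : w (e i) = next g (e i) := hwx
      rw [(hP i).left] at h4
      exact (hP i).iter_ne (k := 0) (l := 1) (Nat.zero_le _) (hP i).pos (by omega) h4
    · rcases Nat.even_or_odd l with h4 | h4
      · exfalso
        have h5 := ((hP i).pair hG hw l h3 hl).2 h4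
        rw [hwx, ← iterate_succ_apply' (next g)] at h5
        exact (hP i).iter_ne (k := l + 1) (l := l - 1) (by omega) (by omega) (by omega) h5
      · exact (hP i).wd hG hw l hl.le h4

end four

end Full
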