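import Pool.Agent.Full.Dict.Four
import Pool.Agent.Full.Def.Stat
import Pool.Agent.Full.Def.Inst
import Pool.Agent.Full.End.Sand
import Pool.Agent.Full.Loc1.Prob

/-!
# Connections of corners in a planar region and open paths of edges of `ℤ²`

`crn x` = the tail of the half edge `x` of the plane.  In a planar region without pinch points the
clusters of the corners are the open clusters of the edges `bond p`, `p` a tile of the region shifted by
`i` (the shift chooses which corners are the vertices of `ℤ²`).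
-/

set_option autoImplicit false

namespace Full
open Function Relation H47Perc

/-- the tail, shifted by `i` -/
def crs (i : ℤ) (x : Half (ℤ × ℤ)) : ℤ × ℤ := ((crn x).1 + i, (crn x).2)

/-- a planar region without pinch points -/
def NoPinch (T : Finset (ℤ × ℤ)) : Prop :=
  ∀ i j : ℤ, ((i, j) ∈ T → (i + 1, j + 1) ∈ T → (i + 1, j) ∈ T ∨ (i, j + 1) ∈ T) ∧
    ((i + 1, j) ∈ T → (i, j + 1) ∈ T → (i, j) ∈ T ∨ (i + 1, j + 1) ∈ T)

variable {T : Finset (ℤ × ℤ)}

lemma glue_ne_iff' {t : ℤ × ℤ} {d : Dir} : plane.glue T (t, d) ≠ (t, d) ↔ t ∈ T ∧ t + d.vec ∈ T := by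
  rw [plane_glue]
  split_ifs with h
  · refine ⟨fun _ => h, fun _ e => ?_⟩
    exact Dir.opp_ne d (congrArg Prod.snd e)
  · exact ⟨fun e => absurd rfl e, fun h' => absurd h' h⟩

lemma glue_of {t : ℤ × ℤ} {d : Dir} (h1 : t ∈ T) (h2 : t + d.vec ∈ T) :
    plane.glue T (t, d) = (t + d.vec, d.opp) := by
  rw [plane_glue, if_pos ⟨h1, h2⟩]

/-- the tail is a corner function -/
lemma corner_crn : Corner (plane.glue T) crn := by
  rintro ⟨⟨i, j⟩, d⟩ h
  obtain ⟨h1, h2⟩ := glue_ne_iff'.1 h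
  rw [glue_of h1 h2]
  cases d <;> simp [crn, rho, Dir.opp, Dir.ccw, Dir.vec]

lemma crn_same {x y : Half (ℤ × ℤ)} (h : Same (plane.glue T) x y) : crn y = crn x := by
  obtain ⟨h1, rfl⟩ := h
  have hG := plane.glu T
  have h2 := corner_crn (T := T) (plane.glue T x) (fun e => h1 (by
    rw [hG.inv] at e; exact e.symm))
  rw [hG.inv] at h2
  exact h2.symm

lemma crn_rho_parity (x : Half (ℤ × ℤ)) :
    ((crn (rho x)).1 + (crn (rho x)).2) % 2 = ((crn x).1 + (crn x).2 + 1) % 2 := by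
  obtain ⟨⟨i, j⟩, d⟩ := x
  cases d <;> simp only [crn, rho, Dir.ccw] <;> omega

/-- the half edge with the direction `d` and the tail `c` -/
def hat (c : ℤ × ℤ) (d : Dir) : Half (ℤ × ℤ) :=
  match d with
  | .E => ((c.1 - 1, c.2), .E)
  | .N => ((c.1 - 1, c.2 - 1), .N)
  | .W => ((c.1, c.2 - 1), .W)
  | .S => (c, .S)

lemma hat_crn (x : Half (ℤ × ℤ)) : hat (crn x) x.2 = x := by
  obtain ⟨⟨i, j⟩, d⟩ := x
  cases d <;> simp [hat, crn]

lemma crn_hat (c : ℤ × ℤ) (d : Dir) : crn (hat c d) = c := by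
  obtain ⟨i, j⟩ := c
  cases d <;> simp [hat, crn]

lemma hat_step {c : ℤ × ℤ} {d : Dir} (h1 : (hat c d).1 ∈ T) (h2 : (hat c d.cw).1 ∈ T) :
    EqvGen (Same (plane.glue T)) (hat c d) (hat c d.cw) := by
  obtain ⟨a, b⟩ := c
  have e : (hat (a, b) d).1 + Dir.vec d = (hat (a, b) d.cw).1 := by
    cases d <;> ext <;> simp [hat, Dir.vec, Dir.cw, sub_eq_add_neg]
  have e2 : hat (a, b) d = ((hat (a, b) d).1, d) := by cases d <;> rfl
  have e3 : hat (a, b) d.cw = ((hat (a, b) d.cw).1, d.opp.ccw) := by cases d <;> rfl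
  refine EqvGen.rel _ _ ⟨?_, ?_⟩
  · rw [e2]
    exact glue_ne_iff'.2 ⟨h1, by rw [e]; exact h2⟩
  · rw [e2, glue_of h1 (by rw [e]; exact h2), e, e3]
    rfl

/-- two half edges of the region with the same tail are connected around the corner -/
theorem same_corner (hp : NoPinch T) {x y : Half (ℤ × ℤ)} (hx : x.1 ∈ T) (hy : y.1 ∈ T)
    (h : crn x = crn y) : EqvGen (Same (plane.glue T)) x y := by
  have key : ∀ (c : ℤ × ℤ) (d d' : Dir), (hat c d).1 ∈ T → (hat c d').1 ∈ T →
      EqvGen (Same (plane.glue T)) (hat c d) (hat c d') := by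
    intro c d d' h1 h2
    have opp : ∀ d : Dir, (hat c d).1 ∈ T → (hat c d.cw.cw).1 ∈ T →
        (hat c d.cw).1 ∈ T ∨ (hat c d.ccw).1 ∈ T := by
      obtain ⟨a, b⟩ := c
      have h3 := hp (a - 1) (b - 1)
      rw [show a - 1 + 1 = a by ring, show b - 1 + 1 = b by ring] at h3
      intro d
      cases d
      · intro k1 k2
        exact (h3.2 k2 k1).symm
      · intro k1 k2
        exact (h3.1 k1 k2).symm
      · intro k1 k2
        exact h3.2 k1 k2
      · intro k1 k2
        exact h3.1 k2 k1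
    have two : ∀ d : Dir, (hat c d).1 ∈ T → (hat c d.cw.cw).1 ∈ T →
        EqvGen (Same (plane.glue T)) (hat c d) (hat c d.cw.cw) := by
      intro d k1 k2
      rcases opp d k1 k2 with h | h
      · exact (hat_step k1 h).trans _ _ _ (hat_step h k2)
      · have e1 : d.ccw.cw = d := Dir.cw_ccw d
        have e2 : d.cw.cw.cw = d.ccw := by cases d <;> rfl
        have g1 : EqvGen (Same (plane.glue T)) (hat c d.ccw) (hat c d) := by
          have := hat_step (c := c) (d := d.ccw) h (by rw [e1]; exact k1)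
          rwa [e1] at this
        have g2 : EqvGen (Same (plane.glue T)) (hat c d.cw.cw) (hat c d.ccw) := by
          have := hat_step (c := c) (d := d.cw.cw) k2 (by rw [e2]; exact h)
          rwa [e2] at this
        exact (g2.trans _ _ _ g1).symm
    have hd : d' = d ∨ d' = d.cw ∨ d' = d.cw.cw ∨ d = d'.cw := by
      cases d <;> cases d' <;> decide
    rcases hd with rfl | rfl | rfl | rfl
    · exact EqvGen.refl _
    · exact hat_step h1 h2
    · exact two d h1 h2
    · exact (hat_step h2 h1).symm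
  have k1 := key (crn x) x.2 y.2
  rw [hat_crn] at k1
  have k2 : hat (crn x) y.2 = y := by rw [h]; exact hat_crn y
  rw [k2] at k1
  exact k1 hx hy

/-! ### steps of the clusters -/

variable {σ : Finset (Sym2 (ℤ × ℤ))} {ω : Finset (ℤ × ℤ)} {i : ℤ}

/-- the configuration of the tiles of `T` given by the open edges -/
def Reads (T : Finset (ℤ × ℤ)) (i : ℤ) (σ : Finset (Sym2 (ℤ × ℤ))) (ω : Finset (ℤ × ℤ)) : Prop :=
  ∀ t ∈ T, t ∈ ω ↔ (bond (t.1 + i, t.2) ∈ σ ↔ Even (t.1 + i + t.2))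

/-- the shifted region -/
def shT (T : Finset (ℤ × ℤ)) (i : ℤ) : Set (ℤ × ℤ) := {p | (p.1 - i, p.2) ∈ T}

lemma tstep_symm {S : Set (ℤ × ℤ)} {u v : ℤ × ℤ} (h : TStep S σ u v) : TStep S σ v u := by
  obtain ⟨p, h1, h2, h3⟩ := h
  exact ⟨p, h1, h2, by tauto⟩

lemma path_symm {S : Set (ℤ × ℤ)} {u v : ℤ × ℤ} (h : ReflTransGen (TStep S σ) u v) :
    ReflTransGen (TStep S σ) v u := by
  induction h with
  | refl => exact ReflTransGen.refl
  | tail _ h2 ih => exact ReflTransGen.head (tstep_symm h2) ih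

/-- a diagonal is an open edge -/
lemma tstep_of_diag (hr : Reads T i σ ω) {x y : Half (ℤ × ℤ)} (h : Diag T ω x y)
    (he : Even ((crs i x).1 + (crs i x).2)) : TStep (shT T i) σ (crs i x) (crs i y) := by
  obtain ⟨h1, h2, rfl⟩ := h
  obtain ⟨⟨a, b⟩, d⟩ := x
  have h3 := hr (a, b) h1
  have h4 : Dir.mt (decide ((a, b) ∈ ω)) d = d.ccw := congrArg Prod.snd h2
  have hm : (a + i, b) ∈ shT T i := by
    show (a + i - i, b) ∈ T
    rw [add_sub_cancel_right]
    exact h1
  simp only at h3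
  cases d
  · -- E
    have hb : (a, b) ∉ ω := by
      intro hb; simp [hb, Dir.mt, Dir.ccw] at h4
    simp only [crs, crn] at he
    have ho : ¬ Even (a + i + b) := by
      intro h5
      rw [show a + 1 + i + b = (a + i + b) + 1 by ring] at he
      exact (Int.even_add_one.1 he) h5
    refine ⟨(a + i, b), hm, by tauto, Or.inl ⟨?_, ?_⟩⟩
    · simp [crs, crn, cA, ho]; ring
    · simp [crs, crn, cB, ho, rho, Dir.ccw]
  · -- N
    have hb : (a, b) ∈ ω := by
      by_contra hb; simp [hb, Dir.mt, Dir.ccw] at h4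
    simp only [crs, crn] at he
    have ho : Even (a + i + b) := by
      rw [show a + 1 + i + (b + 1) = (a + i + b) + 2 * 1 by ring] at he
      rwa [Int.even_add, iff_true_right (even_two_mul 1)] at he
    refine ⟨(a + i, b), hm, by tauto, Or.inr ⟨?_, ?_⟩⟩
    · simp [crs, crn, cB, ho]; ring
    · simp [crs, crn, cA, ho, rho, Dir.ccw]
  · -- W
    have hb : (a, b) ∉ ω := by
      intro hb; simp [hb, Dir.mt, Dir.ccw] at h4
    simp only [crs, crn] at he
    have ho : ¬ Even (a + i + b) := by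
      intro h5
      rw [show a + i + (b + 1) = (a + i + b) + 1 by ring] at he
      exact (Int.even_add_one.1 he) h5
    refine ⟨(a + i, b), hm, by tauto, Or.inr ⟨?_, ?_⟩⟩
    · simp [crs, crn, cB, ho]
    · simp [crs, crn, cA, ho, rho, Dir.ccw]; ring
  · -- S
    have hb : (a, b) ∈ ω := by
      by_contra hb; simp [hb, Dir.mt, Dir.ccw] at h4
    simp only [crs, crn] at he
    refine ⟨(a + i, b), hm, by tauto, Or.inl ⟨?_, ?_⟩⟩
    · simp [crs, crn, cA, he]
    · simp [crs, crn, cB, he, rho, Dir.ccw]; ring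

/-- an open edge is a diagonal -/
lemma diag_of_tstep (hr : Reads T i σ ω) {u v : ℤ × ℤ} (h : TStep (shT T i) σ u v) :
    ∃ x y : Half (ℤ × ℤ), x.1 ∈ T ∧ y.1 ∈ T ∧ Diag T ω x y ∧ crs i x = u ∧ crs i y = v := by
  obtain ⟨⟨a, b⟩, h1, h2, h3⟩ := h
  have h1' : (a - i, b) ∈ T := h1
  have h4 := hr (a - i, b) h1'
  simp only [sub_add_cancel] at h4
  by_cases he : Even (a + b)
  · have hb : (a - i, b) ∈ ω := by tauto
    rcases h3 with ⟨rfl, rfl⟩ | ⟨rfl, rfl⟩
    · refine ⟨((a - i, b), .S), ((a - i, b), .N), h1', h1', ⟨h1', ?_, rfl⟩, ?_, ?_⟩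
      · simp [mate, hb, Dir.mt, rho, Dir.ccw]
      · simp [crs, crn, cA, he]
      · simp [crs, crn, cB, he]; ring
    · refine ⟨((a - i, b), .N), ((a - i, b), .S), h1', h1', ⟨h1', ?_, rfl⟩, ?_, ?_⟩
      · simp [mate, hb, Dir.mt, rho, Dir.ccw]
      · simp [crs, crn, cB, he]; ring
      · simp [crs, crn, cA, he]
  · have hb : (a - i, b) ∉ ω := by tauto
    rcases h3 with ⟨rfl, rfl⟩ | ⟨rfl, rfl⟩
    · refine ⟨((a - i, b), .E), ((a - i, b), .W), h1', h1', ⟨h1', ?_, rfl⟩, ?_, ?_⟩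
      · simp [mate, hb, Dir.mt, rho, Dir.ccw]
      · simp [crs, crn, cA, he]; ring
      · simp [crs, crn, cB, he]
    · refine ⟨((a - i, b), .W), ((a - i, b), .E), h1', h1', ⟨h1', ?_, rfl⟩, ?_, ?_⟩
      · simp [mate, hb, Dir.mt, rho, Dir.ccw]
      · simp [crs, crn, cB, he]
      · simp [crs, crn, cA, he]; ring

lemma crs_even_rho2 (i : ℤ) (x : Half (ℤ × ℤ)) :
    Even ((crs i (rho (rho x))).1 + (crs i (rho (rho x))).2) ↔ Even ((crs i x).1 + (crs i x).2) := by
  have h1 := crn_rho_parity x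
  have h2 := crn_rho_parity (rho x)
  simp only [crs, Int.even_iff]
  omega

/-- a connection of corners is an open path -/
theorem path_of_clu (hr : Reads T i σ ω) {x y : Half (ℤ × ℤ)} (h : Clu T (plane.glue T) ω x y) :
    (Even ((crs i x).1 + (crs i x).2) ↔ Even ((crs i y).1 + (crs i y).2)) ∧
      (Even ((crs i x).1 + (crs i x).2) → ReflTransGen (TStep (shT T i) σ) (crs i x) (crs i y)) := by
  induction h with
  | rel x y h =>
    rcases h with h | h
    · have h1 : crs i y = crs i x := by unfold crs; rw [crn_same h]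
      rw [h1]
      exact ⟨Iff.rfl, fun _ => ReflTransGen.refl⟩
    · have h1 : Even ((crs i y).1 + (crs i y).2) ↔ Even ((crs i x).1 + (crs i x).2) := by
        rw [h.2.2]
        exact crs_even_rho2 i x
      exact ⟨h1.symm, fun he => ReflTransGen.single (tstep_of_diag hr h he)⟩
  | refl x => exact ⟨Iff.rfl, fun _ => ReflTransGen.refl⟩
  | symm x y _ ih => exact ⟨ih.1.symm, fun he => path_symm (ih.2 (ih.1.2 he))⟩
  | trans x y z _ _ ih1 ih2 =>
    exact ⟨ih1.1.trans ih2.1, fun he => (ih1.2 he).trans (ih2.2 (ih1.1.1 he))⟩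

/-- an open path is a connection of corners -/
theorem clu_of_path (hp : NoPinch T) (hr : Reads T i σ ω) {x : Half (ℤ × ℤ)} (hx : x.1 ∈ T) {v : ℤ × ℤ}
    (h : ReflTransGen (TStep (shT T i) σ) (crs i x) v) :
    ∃ y : Half (ℤ × ℤ), y.1 ∈ T ∧ crs i y = v ∧ Clu T (plane.glue T) ω x y := by
  have hcr : ∀ a b : Half (ℤ × ℤ), crs i a = crs i b → crn a = crn b := by
    intro a b h
    unfold crs at h
    rw [Prod.mk.injEq] at h
    exact Prod.ext (by linarith [h.1]) h.2
  have hsame : ∀ a b : Half (ℤ × ℤ), a.1 ∈ T → b.1 ∈ T → crs i a = crs i b →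
      Clu T (plane.glue T) ω a b := fun a b ha hb hab =>
    EqvGen.mono (fun _ _ h => Or.inl h) _ _ (same_corner hp ha hb (hcr a b hab))
  induction h with
  | refl => exact ⟨x, hx, rfl, EqvGen.refl _⟩
  | tail _ h2 ih =>
    obtain ⟨y, h3, h4, h5⟩ := ih
    obtain ⟨a, b, ha, hb, hd, e1, e2⟩ := diag_of_tstep hr h2
    refine ⟨b, hb, e2, (h5.trans _ _ _ (hsame y a h3 ha (h4.trans e1.symm))).trans _ _ _ ?_⟩
    exact EqvGen.rel _ _ (Or.inr hd)

/-- **connections of corners and crossings** -/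
theorem cross_iff (hp : NoPinch T) (hr : Reads T i σ ω) {A B : Half (ℤ × ℤ) → Prop}
    (hA : ∀ x, A x → x.1 ∈ T ∧ Even ((crs i x).1 + (crs i x).2)) (hB : ∀ x, B x → x.1 ∈ T) :
    (∃ x y, A x ∧ B y ∧ Clu T (plane.glue T) ω x y) ↔
      CrossT (shT T i) {u | ∃ x, A x ∧ u = crs i x} {u | ∃ x, B x ∧ u = crs i x} σ := by
  constructor
  · rintro ⟨x, y, hx, hy, h⟩
    exact ⟨crs i x, ⟨x, hx, rfl⟩, crs i y, ⟨y, hy, rfl⟩, (path_of_clu hr h).2 (hA x hx).2⟩
  · rintro ⟨_, ⟨x, hx, rfl⟩, _, ⟨y, hy, rfl⟩, h⟩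
    obtain ⟨z, h1, h2, h3⟩ := clu_of_path hp hr (hA x hx).1 h
    refine ⟨x, y, hx, hy, h3.trans _ _ _ ?_⟩
    refine EqvGen.mono (fun _ _ h => Or.inl h) _ _ (same_corner hp h1 (hB y hy) ?_)
    unfold crs at h2
    rw [Prod.mk.injEq] at h2
    exact Prod.ext (by linarith [h2.1]) h2.2

/-! ### the law -/

open Pool.Agent.Helper69.RSW (P P_congr)

lemma bond_mem_edgesIn {V : Finset (ℤ × ℤ)} {p : ℤ × ℤ} (h1 : pv (cA p) ∈ V) (h2 : pv (cB p) ∈ V) :
    bond p ∈ edgesIn V := by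
  classical
  unfold edgesIn bond
  rw [Finset.mem_filter, Finset.mk_mem_sym2_iff, SimpleGraph.mem_edgeSet]
  refine ⟨⟨h1, h2⟩, ?_⟩
  obtain ⟨a, b⟩ := p
  by_cases he : Even (a + b)
  · obtain ⟨k, hk⟩ := he
    have he : Even (a + b) := ⟨k, hk⟩
    right
    simp only [pv, cA, cB, he, if_true]
    constructor
    · omega
    · rw [show (a + b) / 2 - (a + 1 + (b + 1)) / 2 = -1 by omega]; norm_num
  · obtain ⟨k, hk⟩ := Int.not_even_iff_odd.1 he
    left
    simp only [pv, cA, cB, he, if_false]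
    constructor
    · omega
    · rw [show (b - (a + 1)) / 2 - (b + 1 - a) / 2 = -1 by omega]; norm_num

/-- the configuration of the tiles of `T` read from the open edges -/
noncomputable def rd (T : Finset (ℤ × ℤ)) (i : ℤ) (σ : Finset (Sym2 (ℤ × ℤ))) : Finset (ℤ × ℤ) := by
  classical
  exact T.filter fun t => (bond (t.1 + i, t.2) ∈ σ ↔ Even (t.1 + i + t.2))

lemma reads_rd (T : Finset (ℤ × ℤ)) (i : ℤ) (σ : Finset (Sym2 (ℤ × ℤ))) : Reads T i σ (rd T i σ) := by
  classical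
  intro t ht
  unfold rd
  rw [Finset.mem_filter]
  exact and_iff_right ht

/-- **the law of the tiles is the law of the edges** -/
theorem law_tiles {V : Finset (ℤ × ℤ)}
    (hV : ∀ t ∈ T, pv (cA (t.1 + i, t.2)) ∈ V ∧ pv (cB (t.1 + i, t.2)) ∈ V)
    (A : Finset (ℤ × ℤ) → Prop) : perc half V (fun σ => A (rd T i σ)) = P T A := by
  classical
  have hinj : Set.InjOn (fun t : ℤ × ℤ => bond (t.1 + i, t.2)) (T : Set (ℤ × ℤ)) := by
    intro t _ t' _ h
    have := bond_inj h
    rw [Prod.mk.injEq] at this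
    exact Prod.ext (by linarith [this.1]) this.2
  rw [Pool.Agent.Helper69.RSW.perc_half_eq, ← P_col T (fun t => Even (t.1 + i + t.2)) A,
    ← P_chart (T := edgesIn V) (φ := fun t : ℤ × ℤ => bond (t.1 + i, t.2)) hinj
      (fun t ht => bond_mem_edgesIn (hV t ht).1 (hV t ht).2)]
  apply P_congr
  intro σ _
  have : rd T i σ = T.filter fun p => p ∈ pre (fun t : ℤ × ℤ => bond (t.1 + i, t.2)) T σ ↔
      Even (p.1 + i + p.2) := by
    unfold rd pre
    apply Finset.filter_congr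
    intro p hp
    simp only [Finset.mem_filter, hp, true_and]
  rw [this]

/-- **crossing probability of the tiles = crossing probability of the edges** -/
theorem perc_cross (hp : NoPinch T) {V : Finset (ℤ × ℤ)}
    (hV : ∀ t ∈ T, pv (cA (t.1 + i, t.2)) ∈ V ∧ pv (cB (t.1 + i, t.2)) ∈ V)
    {A B : Half (ℤ × ℤ) → Prop} (hA : ∀ x, A x → x.1 ∈ T ∧ Even ((crs i x).1 + (crs i x).2))
    (hB : ∀ x, B x → x.1 ∈ T) :
    P T (fun ω => ∃ x y, A x ∧ B y ∧ Clu T (plane.glue T) ω x y) =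
      perc half V (CrossT (shT T i) {u | ∃ x, A x ∧ u = crs i x} {u | ∃ x, B x ∧ u = crs i x}) := by
  rw [← law_tiles hV]
  congr 1
  funext σ
  exact propext (cross_iff hp (reads_rd T i σ) hA hB)

end Full
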