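import Pool.Agent.Full.Dict.Cross
import Pool.Agent.Full.Disc.Next

/-!
# A closed wall with four ends on a boundary cycle

`seg_wall` : between two consecutive ends the wall joins the boundary half edges two by two;
`marks_of_cyc` : a closed wall with the four ends `e 0, …, e 3` on the only boundary cycle gives `Marks`;
`arc_eq` : in the plane the corners of the arc `j` are the corners of one parity between `e j` and
`e (j + 1)`.
-/

set_option autoImplicit false

namespace Full
open Function Relation H47Perc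

section general
variable {τ : Type*} {T : Finset τ} {g w : Half τ → Half τ}

/-- between two consecutive ends of the wall -/
theorem seg_wall (hG : Glu T g) (hW : Wall T g w) {u : Half τ} (hu : Bd T g u) (hwu : w u = u) {L : ℕ}
    (hL : 0 < L) (hfix : w ((next g)^[L] u) = (next g)^[L] u)
    (hno : ∀ k, 0 < k → k < L → w ((next g)^[k] u) ≠ (next g)^[k] u) :
    Odd L ∧ ∀ k, k < L → Odd k → w ((next g)^[k] u) = (next g)^[k + 1] u := by
  have hb : ∀ k, Bd T g ((next g)^[k] u) := fun k => hG.bd_iter hu k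
  have hwb : ∀ x, Bd T g x → Bd T g (w x) := by
    intro x hx
    refine ⟨hW.mem x hx.1, ?_⟩
    by_contra hne
    have h2 := hW.ext (w x) hne
    rw [hW.inv] at h2
    apply hne
    have h3 := congrArg g h2
    rw [hG.inv, hx.2] at h3
    rw [← h3, hx.2]
  have key : ∀ j, 2 * j + 1 < L → w ((next g)^[2 * j + 1] u) = (next g)^[2 * j + 2] u := by
    intro j
    induction j with
    | zero =>
      intro h
      rcases hW.near _ (hb 1) with h1 | h1 | h1
      · exact absurd h1 (hno 1 one_pos h)
      · rw [show 2 * 0 + 2 = 1 + 1 by norm_num, iterate_succ_apply']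
        exact h1
      · exfalso
        have h2 : next g u = next g (w ((next g)^[1] u)) := h1
        have h3 := hG.next_inj hu.2 (hwb _ (hb 1)).2 h2
        have h4 : (next g)^[1] u = u := by
          rw [← hW.inv ((next g)^[1] u), ← h3, hwu]
        exact hno 1 one_pos h (by rw [h4, hwu])
    | succ j ih =>
      intro h
      have ih := ih (by omega)
      have hk : 2 * (j + 1) + 1 = (2 * j + 2) + 1 := by ring
      rcases hW.near _ (hb (2 * (j + 1) + 1)) with h1 | h1 | h1
      · exact absurd h1 (hno _ (by omega) h)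
      · rw [show 2 * (j + 1) + 2 = (2 * (j + 1) + 1) + 1 by ring, iterate_succ_apply' (next g) (2 * (j + 1) + 1)]
        exact h1
      · exfalso
        rw [hk, iterate_succ_apply'] at h1
        have h3 := hG.next_inj (hb (2 * j + 2)).2 (hwb _ (hG.next_bd (hb (2 * j + 2)))).2 h1
        -- `w` of both sides
        have h4 : (next g)^[2 * j + 1] u = next g ((next g)^[2 * j + 2] u) := by
          have h5 := congrArg w h3
          rw [hW.inv, ← ih, hW.inv] at h5
          rw [ih] at h5
          exact h5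
        have h5 : u = (next g)^[2] u := by
          have h6 : ∀ m, (next g)^[m] u = (next g)^[m] ((next g)^[2] u) → u = (next g)^[2] u := by
            intro m
            induction m with
            | zero => exact fun h => h
            | succ m ihm =>
              intro h
              rw [iterate_succ_apply', iterate_succ_apply'] at h
              exact ihm (hG.next_inj (hb m).2 (hG.bd_iter (hb 2) m).2 h)
          apply h6 (2 * j + 1)
          rw [← iterate_add_apply, h4, ← iterate_succ_apply' (next g)]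
        have h6 : ∀ m, (next g)^[2 * m] u = u := by
          intro m
          induction m with
          | zero => rfl
          | succ m ihm =>
            rw [show 2 * (m + 1) = 2 * m + 2 by ring, iterate_add_apply, ← h5, ihm]
        have h7 : (next g)^[2 * j + 2] u = u := by
          rw [show 2 * j + 2 = 2 * (j + 1) by ring]
          exact h6 _
        exact hno (2 * j + 2) (by omega) (by omega) (by rw [h7, hwu])
  have key' : ∀ k, k < L → Odd k → w ((next g)^[k] u) = (next g)^[k + 1] u := by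
    rintro k hk ⟨j, rfl⟩
    exact key j hk
  refine ⟨?_, key'⟩
  by_contra hodd
  rw [Nat.not_odd_iff_even] at hodd
  obtain ⟨j, hj⟩ := hodd
  have h1 : Odd (L - 1) := ⟨j - 1, by omega⟩
  have h2 := key' (L - 1) (by omega) h1
  rw [show L - 1 + 1 = L by omega] at h2
  have h3 := congrArg w h2
  rw [hW.inv, hfix, ← h2] at h3
  exact hno (L - 1) (by omega) (by omega) h3.symm

/-- the corners of odd index between two ends are wired together -/
theorem seg_wd (hG : Glu T g) {u : Half τ} (hu : Bd T g u) {L : ℕ}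
    (h : ∀ k, k < L → Odd k → w ((next g)^[k] u) = (next g)^[k + 1] u) {k : ℕ} (hk : k ≤ L) (ho : Odd k) :
    Wd T g w (rho u) ((next g)^[k] u) := by
  have hr : ∀ x y, Same g x y → Same g x y ∨ Wire T g w x y := fun _ _ h => Or.inl h
  obtain ⟨j, rfl⟩ := ho
  induction j with
  | zero => exact EqvGen.symm _ _ (eqv_next hG hr hu.2)
  | succ j ih =>
    have ih := ih (by omega)
    have hb := hG.bd_iter hu (2 * j + 1)
    have h1 := h (2 * j + 1) (by omega) ⟨j, rfl⟩
    have h2 : Wire T g w ((next g)^[2 * j + 1] u) (rho ((next g)^[2 * j + 2] u)) :=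
      ⟨hb, by rw [h1, iterate_succ_apply'], by rw [h1]⟩
    have h3 := eqv_next hG hr (hG.bd_iter hu (2 * j + 2)).2
    rw [← iterate_succ_apply' (next g)] at h3
    exact (ih.trans _ _ _ (EqvGen.rel _ _ (Or.inr h2))).trans _ _ _ (EqvGen.symm _ _ h3)

/-- the segments between four ends on the only boundary cycle -/
structure Cyc (T : Finset τ) (g : Half τ → Half τ) (e : Fin 4 → Half τ) (L : Fin 4 → ℕ) : Prop where
  bd : ∀ i, Bd T g (e i)
  pos : ∀ i, 0 < L i
  step : ∀ i, (next g)^[L i] (e i) = e (i + 1)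
  no : ∀ i k, 0 < k → k < L i → ∀ j, (next g)^[k] (e i) ≠ e j
  inj : Injective e
  two : ∀ x, Bd T g x → (next g)^[2] x ≠ x ∧ next g x ≠ x
  cover : ∀ x, Bd T g x → ∃ i k, k < L i ∧ (next g)^[k] (e i) = x

theorem cyc_of_cyc4 (hG : Glu T g) {e : Fin 4 → Half τ} (h : Cyc4 g e) (he : Bd T g (e 0))
    (hone : ∀ x, Bd T g x → ∃ k, (next g)^[k] (e 0) = x) : ∃ L, Cyc T g e L := by
  obtain ⟨a, b, c, ha, hab, hbc, hc, h1, h2, h3⟩ := h
  set p := minimalPeriod (next g) (e 0) with hp
  have hper : (next g)^[p] (e 0) = e 0 := iterate_minimalPeriod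
  have hinj : ∀ k l, k < p → l < p → (next g)^[k] (e 0) = (next g)^[l] (e 0) → k = l := by
    intro k l hk hl h
    exact (iterate_eq_iterate_iff_of_lt_minimalPeriod hk hl).1 h
  set o : Fin 4 → ℕ := ![0, a, b, c] with ho
  set o' : Fin 4 → ℕ := ![a, b, c, p] with ho'
  have hoe : ∀ i, (next g)^[o i] (e 0) = e i := by
    intro i
    fin_cases i
    · rfl
    · exact h1
    · exact h2
    · exact h3
  have hoe' : ∀ i, (next g)^[o' i] (e 0) = e (i + 1) := by
    intro i
    fin_cases i
    · exact h1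
    · exact h2
    · exact h3
    · exact hper
  have hlt : ∀ i, o i < o' i := by
    intro i
    fin_cases i
    · exact ha
    · exact hab
    · exact hbc
    · exact hc
  have hop : ∀ i, o i < p := by
    intro i
    fin_cases i
    · show 0 < p; omega
    · show a < p; omega
    · show b < p; omega
    · show c < p; omega
  have hsep : ∀ i j m, o i < m → m < o' i → m ≠ o j := by
    intro i j m
    fin_cases i <;> fin_cases j <;> simp only [ho, ho'] <;> intro h1 h2 <;> simp at h1 h2 ⊢ <;> omega
  have hmp : ∀ i m, m < o' i → m < p := by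
    intro i m
    fin_cases i <;> simp only [ho'] <;> intro h1 <;> simp at h1 <;> omega
  have hadd : ∀ i k, (next g)^[k] (e i) = (next g)^[o i + k] (e 0) := by
    intro i k
    rw [add_comm, iterate_add_apply, hoe]
  have hbd : ∀ k, Bd T g ((next g)^[k] (e 0)) := fun k => hG.bd_iter he k
  refine ⟨fun i => o' i - o i, ?_, ?_, ?_, ?_, ?_, ?_, ?_⟩
  · intro i
    rw [← hoe i]
    exact hbd _
  · intro i
    have := hlt i
    show 0 < o' i - o i
    omega
  · intro i
    rw [hadd, show o i + (o' i - o i) = o' i by have := hlt i; omega, hoe']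
  · intro i k hk hk2 j hj
    have hk2 : k < o' i - o i := hk2
    rw [hadd, ← hoe j] at hj
    have := hinj _ _ (hmp i _ (by omega)) (hop j) hj
    exact hsep i j (o i + k) (by omega) (by omega) this
  · intro i j hij
    rw [← hoe i, ← hoe j] at hij
    have h4 := hinj _ _ (hop i) (hop j) hij
    revert h4
    fin_cases i <;> fin_cases j <;> simp [ho] <;> omega
  · intro x hx
    obtain ⟨k, rfl⟩ := hone x hx
    have hmin : minimalPeriod (next g) ((next g)^[k] (e 0)) = p :=
      minimalPeriod_apply_iterate (hG.next_periodic he) k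
    constructor
    · intro h4
      have := IsPeriodicPt.minimalPeriod_le (n := 2) (by norm_num) h4
      omega
    · intro h4
      have h5 : IsPeriodicPt (next g) 1 ((next g)^[k] (e 0)) := h4
      have := h5.minimalPeriod_le (by norm_num)
      omega
  · intro x hx
    obtain ⟨k, rfl⟩ := hone x hx
    have hkp : k % p < p := Nat.mod_lt _ (by omega)
    have hkx : (next g)^[k % p] (e 0) = (next g)^[k] (e 0) := iterate_mod_minimalPeriod_eq
    obtain ⟨i, hi1, hi2⟩ : ∃ i, o i ≤ k % p ∧ k % p < o' i := by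
      rcases lt_or_ge (k % p) a with h | h
      · exact ⟨0, Nat.zero_le _, h⟩
      rcases lt_or_ge (k % p) b with h' | h'
      · exact ⟨1, h, h'⟩
      rcases lt_or_ge (k % p) c with h'' | h''
      · exact ⟨2, h', h''⟩
      · exact ⟨3, h'', hkp⟩
    refine ⟨i, k % p - o i, ?_, ?_⟩
    · show k % p - o i < o' i - o i
      omega
    · rw [hadd, show o i + (k % p - o i) = k % p by omega, hkx]

variable {e : Fin 4 → Half τ} {L : Fin 4 → ℕ}

/-- all about a closed wall with four ends on the boundary cycle -/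
theorem Cyc.seg (hc : Cyc T g e L) (hG : Glu T g) (hw : IsW T g (Set.range e) w) (i : Fin 4) :
    Odd (L i) ∧ ∀ k, k < L i → Odd k → w ((next g)^[k] (e i)) = (next g)^[k + 1] (e i) := by
  have hfix : ∀ j, w (e j) = e j := fun j => (hw.ends _ (hc.bd j)).2 ⟨j, rfl⟩
  refine seg_wall hG hw.toWall (hc.bd i) (hfix i) (hc.pos i) (by rw [hc.step i, hfix]) ?_
  intro k hk hk2 h
  obtain ⟨j, hj⟩ := (hw.ends _ (hG.bd_iter (hc.bd i) k)).1 h
  exact hc.no i k hk hk2 j hj.symm

theorem Cyc.wire (hc : Cyc T g e L) (hG : Glu T g) (hw : IsW T g (Set.range e) w) {x : Half τ}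
    (hx : Bd T g x) (h : w x = next g x) : ∃ i k, Odd k ∧ k < L i ∧ (next g)^[k] (e i) = x := by
  obtain ⟨i, k, hk, rfl⟩ := hc.cover x hx
  refine ⟨i, k, ?_, hk, rfl⟩
  by_contra ho
  rw [Nat.not_odd_iff_even] at ho
  rcases Nat.eq_zero_or_pos k with rfl | hk0
  · have h1 : w (e i) = e i := (hw.ends _ (hc.bd i)).2 ⟨i, rfl⟩
    have h2 : w (e i) = next g (e i) := h
    exact (hc.two _ (hc.bd i)).2 (h2.symm.trans h1)
  · obtain ⟨j, hj⟩ := ho
    have h1 := (hc.seg hG hw i).2 (k - 1) (by omega) ⟨j - 1, by omega⟩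
    rw [show k - 1 + 1 = k by omega] at h1
    rw [← h1, hw.inv] at h
    rw [h1] at h
    have hb := hG.bd_iter (hc.bd i) (k - 1)
    apply (hc.two _ hb).1
    rw [show (2 : ℕ) = 1 + 1 by rfl, iterate_succ_apply', iterate_one, ← iterate_succ_apply' (next g),
      show (k - 1).succ = k by omega, ← h]

/-- **the four marks** -/
theorem Cyc.marks (hc : Cyc T g e L) (hG : Glu T g) (hw : IsW T g (Set.range e) w) : Marks T g w e := by
  have hfix : ∀ j, w (e j) = e j := fun j => (hw.ends _ (hc.bd j)).2 ⟨j, rfl⟩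
  refine ⟨?_, ?_, hc.inj, ?_⟩
  · intro x
    constructor
    · rintro ⟨h1, h2⟩
      have hgx : g x = x := by
        by_contra hne
        rw [hw.ext x hne] at h2
        exact hne h2
      obtain ⟨j, hj⟩ := (hw.ends x ⟨h1, hgx⟩).1 h2
      exact ⟨j, hj.symm⟩
    · rintro ⟨j, rfl⟩
      exact ⟨(hc.bd j).1, hfix j⟩
  · intro i
    obtain ⟨h1, h2⟩ := hc.seg hG hw i
    have := seg_wd hG (hc.bd i) h2 le_rfl h1
    rwa [hc.step i] at this
  · rintro x y ⟨hx, h1, -⟩
    obtain ⟨i, k, ho, hk, rfl⟩ := hc.wire hG hw hx h1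
    exact ⟨i, seg_wd hG (hc.bd i) (hc.seg hG hw i).2 hk.le ho⟩

end general

/-! ### the plane -/

section plane
variable {T : Finset (ℤ × ℤ)} {w : Half (ℤ × ℤ) → Half (ℤ × ℤ)} {e : Fin 4 → Half (ℤ × ℤ)} {L : Fin 4 → ℕ}

lemma hat_fst (c : ℤ × ℤ) (d : Dir) : (hat c d).1 + Dir.vec d = (hat c d.cw).1 := by
  obtain ⟨a, b⟩ := c
  cases d <;> ext <;> simp [hat, Dir.vec, Dir.cw, sub_eq_add_neg]

lemma hat_eq (c : ℤ × ℤ) (d : Dir) : hat c d = ((hat c d).1, d) := by cases d <;> rfl

lemma bd_hat {c : ℤ × ℤ} {d : Dir} (h : Bd T (plane.glue T) (hat c d)) :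
    (hat c d).1 ∈ T ∧ (hat c d.cw).1 ∉ T := by
  refine ⟨h.1, fun h2 => ?_⟩
  rw [hat_eq] at h
  exact glue_ne_iff'.2 ⟨h.1, by rw [hat_fst]; exact h2⟩ h.2

/-- without pinch points there is at most one boundary half edge with a given tail -/
theorem bd_unique (hp : NoPinch T) {x y : Half (ℤ × ℤ)} (hx : Bd T (plane.glue T) x)
    (hy : Bd T (plane.glue T) y) (h : crn x = crn y) : x = y := by
  have key : ∀ (c : ℤ × ℤ) (d d' : Dir), Bd T (plane.glue T) (hat c d) → Bd T (plane.glue T) (hat c d') →
      d = d' := by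
    intro c d d' h1 h2
    obtain ⟨a1, a2⟩ := bd_hat h1
    obtain ⟨b1, b2⟩ := bd_hat h2
    obtain ⟨a, b⟩ := c
    have h3 := hp (a - 1) (b - 1)
    rw [show a - 1 + 1 = a by ring, show b - 1 + 1 = b by ring] at h3
    cases d <;> cases d' <;> simp only [hat, Dir.cw] at a1 a2 b1 b2 <;> tauto
  have k1 : hat (crn x) x.2 = x := hat_crn x
  have k2 : hat (crn x) y.2 = y := by rw [h]; exact hat_crn y
  have := key (crn x) x.2 y.2 (by rw [k1]; exact hx) (by rw [k2]; exact hy)
  rw [← k1, ← k2, this]

lemma crn_next {x : Half (ℤ × ℤ)} (hx : plane.glue T x = x) :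
    crn (next (plane.glue T) x) = crn (rho x) := (plane.glu T).corner_next corner_crn hx

/-- parity of the tail -/
def par (i : ℤ) (x : Half (ℤ × ℤ)) : Prop := Even ((crs i x).1 + (crs i x).2)

lemma par_rho (i : ℤ) (x : Half (ℤ × ℤ)) : par i (rho x) ↔ ¬ par i x := by
  have h1 := crn_rho_parity x
  simp only [par, crs, Int.even_iff]
  omega

lemma par_next (i : ℤ) {x : Half (ℤ × ℤ)} (hx : plane.glue T x = x) :
    par i (next (plane.glue T) x) ↔ ¬ par i x := by
  rw [← par_rho]
  unfold par crs
  rw [crn_next hx]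

lemma par_iter (i : ℤ) {x : Half (ℤ × ℤ)} (hx : Bd T (plane.glue T) x) (k : ℕ) :
    par i ((next (plane.glue T))^[k] x) ↔ (par i x ↔ Even k) := by
  induction k with
  | zero => simp
  | succ k ih =>
    rw [iterate_succ_apply', par_next i ((plane.glu T).bd_iter hx k).2, ih, Nat.even_add_one]
    tauto

/-- **the corners of an arc** -/
theorem Cyc.arc_eq (hc : Cyc T (plane.glue T) e L) (hp : NoPinch T)
    (hw : IsW T (plane.glue T) (Set.range e) w) (a : ℤ) (i : Fin 4) (hpar : par a (rho (e i))) :
    {u | ∃ x, Arc T (plane.glue T) w e i x ∧ u = crs a x} =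
      evArc (plane.glue T) (e i) (e (i + 1)) a := by
  have hG := plane.glu T
  obtain ⟨hodd, hseg⟩ := hc.seg hG hw i
  have hpe : ¬ par a (e i) := by rw [par_rho] at hpar; exact hpar
  have hbd := hc.bd
  have hcr : ∀ x y : Half (ℤ × ℤ), crs a x = crs a y ↔ crn x = crn y := by
    intro x y
    unfold crs
    rw [Prod.mk.injEq]
    constructor
    · rintro ⟨h1, h2⟩; exact Prod.ext (by linarith) h2
    · intro h; rw [h]; exact ⟨rfl, rfl⟩
  apply Set.Subset.antisymm
  · -- the class of the arc projects to the corners of odd index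
    have inv : ∀ x y, Wd T (plane.glue T) w x y →
        ((∃ k, Odd k ∧ k ≤ L i ∧ crn x = crn ((next (plane.glue T))^[k] (e i))) ↔
          (∃ k, Odd k ∧ k ≤ L i ∧ crn y = crn ((next (plane.glue T))^[k] (e i)))) := by
      intro x y h
      induction h with
      | rel x y h =>
        rcases h with h | ⟨hx, hwx, rfl⟩
        · rw [crn_same h]
        · have hwb : Bd T (plane.glue T) (w x) := by rw [hwx]; exact hG.next_bd hx
          have e1 : crn (rho (w x)) = crn (next (plane.glue T) (w x)) := (crn_next hwb.2).symm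
          constructor
          · rintro ⟨k, ho, hk, h1⟩
            have h2 := bd_unique hp hx (hG.bd_iter (hbd i) k) h1
            have hk' : k < L i := by
              refine lt_of_le_of_ne hk ?_
              rintro rfl
              rw [hc.step i] at h2
              have h3 : w (e (i + 1)) = e (i + 1) := (hw.ends _ (hbd _)).2 ⟨_, rfl⟩
              rw [h2, h3] at hwx
              exact (hc.two _ (hbd (i + 1))).2 hwx.symm
            refine ⟨k + 2, by obtain ⟨j, rfl⟩ := ho; exact ⟨j + 1, by ring⟩, ?_, ?_⟩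
            · obtain ⟨j, rfl⟩ := ho
              obtain ⟨l, hl⟩ := hodd
              omega
            · rw [e1, hwx, h2, ← iterate_succ_apply' (next (plane.glue T)),
                ← iterate_succ_apply' (next (plane.glue T))]
          · rintro ⟨k, ho, hk, h1⟩
            rw [e1] at h1
            have h2 := bd_unique hp (hG.next_bd hwb) (hG.bd_iter (hbd i) k) h1
            obtain ⟨j, rfl⟩ := ho
            rw [show 2 * j + 1 = (2 * j).succ from rfl, iterate_succ_apply'] at h2
            have h3 := hG.next_inj hwb.2 (hG.bd_iter (hbd i) (2 * j)).2 h2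
            rcases Nat.eq_zero_or_pos j with rfl | hj
            · exfalso
              have h4 : w x = e i := h3
              have h5 : w (e i) = e i := (hw.ends _ (hbd _)).2 ⟨_, rfl⟩
              rw [← h4, hw.inv] at h5
              rw [← h5] at hwx
              exact (hc.two _ hx).2 (h5 ▸ hwx.symm)
            · refine ⟨2 * (j - 1) + 1, ⟨j - 1, rfl⟩, by omega, ?_⟩
              rw [hwx, show 2 * j = 2 * (j - 1) + 1 + 1 by omega, iterate_succ_apply'] at h3
              rw [hG.next_inj hx.2 (hG.bd_iter (hbd i) _).2 h3]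
      | refl x => exact Iff.rfl
      | symm x y _ ih => exact ih.symm
      | trans x y z _ _ ih1 ih2 => exact ih1.trans ih2
    rintro _ ⟨x, hx, rfl⟩
    obtain ⟨k, ho, hk, h1⟩ := (inv _ _ hx).1 ⟨1, odd_one, hc.pos i, (crn_next (hbd i).2).symm⟩
    have h2 : crs a x = crs a ((next (plane.glue T))^[k] (e i)) := (hcr _ _).2 h1
    refine ⟨?_, (next (plane.glue T))^[k] (e i), ?_, h2⟩
    · rw [h2]
      have := par_iter a (hbd i) k
      rw [← Nat.not_even_iff_odd] at ho
      exact this.2 ⟨fun h => absurd h hpe, fun h => absurd h ho⟩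
    · rcases lt_or_eq_of_le hk with h | h
      · refine Or.inl ⟨k, ho.pos, rfl, fun m hm hm2 hm3 => ?_⟩
        exact hc.no i m hm (lt_of_le_of_lt hm2 h) (i + 1) hm3
      · rw [h, hc.step i]
        exact Or.inr rfl
  · rintro p ⟨he, x, hx, rfl⟩
    obtain ⟨k, hk0, hk, rfl⟩ : ∃ k, 0 < k ∧ k ≤ L i ∧ (next (plane.glue T))^[k] (e i) = x := by
      rcases hx with ⟨k, hk, rfl, h⟩ | rfl
      · refine ⟨k, hk, ?_, rfl⟩
        by_contra hlt
        push Not at hlt
        exact h (L i) (hc.pos i) hlt.le (hc.step i)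
      · exact ⟨L i, hc.pos i, le_rfl, hc.step i⟩
    have hpk : par a ((next (plane.glue T))^[k] (e i)) := he
    rw [par_iter a (hbd i) k] at hpk
    have ho : Odd k := by
      rw [← Nat.not_even_iff_odd]
      intro h
      exact hpe (hpk.2 h)
    exact ⟨_, seg_wd hG (hbd i) hseg hk ho, rfl⟩

open Pool.Agent.Helper69.RSW (P P_congr P_compl)

/-- **(S5) for a planar region**: the dictionary at the four marks -/
theorem dict4 (hS : SC T (plane.glue T)) (hT : ∀ t ∈ T, ∀ u ∈ T, TConn T (plane.glue T) t u)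
    (hp : NoPinch T) (hcy : Cyc4 (plane.glue T) e) (he : Bd T (plane.glue T) (e 0))
    (hw : IsW T (plane.glue T) (Set.range e) w) :
    ∃ a : ℤ, (a = 0 ∨ a = 1) ∧ ∀ V : Finset (ℤ × ℤ),
      (∀ p ∈ T, pv (cA (p.1 + a, p.2)) ∈ V ∧ pv (cB (p.1 + a, p.2)) ∈ V) →
      1 - P T (fun ω => other (mate ω) w (e 3) = e 0) =
        perc half V (CrossT {p | (p.1 - a, p.2) ∈ T} (evArc (plane.glue T) (e 3) (e 0) a)
          (evArc (plane.glue T) (e 1) (e 2) a)) := by
  have hG := plane.glu T
  obtain ⟨L, hc⟩ := cyc_of_cyc4 hG hcy he (fun x hx => by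
    obtain ⟨k, -, hk⟩ := hG.next_trans hS he hx (hT _ he.1 _ hx.1)
    exact ⟨k, hk⟩)
  have hM := hc.marks hG hw
  obtain ⟨κ, hκ⟩ := hS.exists_colouring
  -- the shift
  obtain ⟨a, ha, hpar⟩ : ∃ a : ℤ, (a = 0 ∨ a = 1) ∧ par a (rho (e 3)) := by
    by_cases h : par 0 (rho (e 3))
    · exact ⟨0, Or.inl rfl, h⟩
    · refine ⟨1, Or.inr rfl, ?_⟩
      simp only [par, crs, Int.even_iff] at h ⊢
      omega
  refine ⟨a, ha, fun V hV => ?_⟩
  -- parity of the arc 1
  have hpar1 : par a (rho (e 1)) := by
    have hstep : ∀ i, par a (e (i + 1)) ↔ par a (rho (e i)) := by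
      intro i
      rw [← hc.step i, par_iter a (hc.bd i), par_rho]
      have := (hc.seg hG hw i).1
      rw [← Nat.not_even_iff_odd] at this
      tauto
    have s3 : par a (e 0) := (hstep 3).2 hpar
    have s0 : par a (e 1) ↔ par a (rho (e 0)) := hstep 0
    rw [par_rho] at s0
    rw [par_rho]
    tauto
  have harc : ∀ i x, Arc T (plane.glue T) w e i x → x.1 ∈ T := by
    intro i x h
    have inv : ∀ x y, Wd T (plane.glue T) w x y → (x.1 ∈ T ↔ y.1 ∈ T) := by
      intro x y h
      induction h with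
      | rel x y h =>
        rcases h with ⟨h1, rfl⟩ | ⟨h1, -, rfl⟩
        · have h2 : x.1 ∈ T := by
            by_contra h3
            exact h1 (hG.out x h3)
          exact ⟨fun _ => hG.mem x h2, fun _ => h2⟩
        · exact ⟨fun _ => hw.mem x h1.1, fun _ => h1.1⟩
      | refl x => exact Iff.rfl
      | symm x y _ ih => exact ih.symm
      | trans x y z _ _ ih1 ih2 => exact ih1.trans ih2
    exact (inv _ _ h).1 (hc.bd i).1
  have hev : ∀ x, Arc T (plane.glue T) w e 3 x → Even ((crs a x).1 + (crs a x).2) := by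
    intro x hx
    have : crs a x ∈ evArc (plane.glue T) (e 3) (e (3 + 1)) a := by
      rw [← hc.arc_eq hp hw a 3 hpar]
      exact ⟨x, hx, rfl⟩
    exact this.1
  have h1 := perc_cross hp hV (A := Arc T (plane.glue T) w e 3) (B := Arc T (plane.glue T) w e 1)
    (fun x hx => ⟨harc 3 x hx, hev x hx⟩) (fun x hx => harc 1 x hx)
  rw [hc.arc_eq hp hw a 3 hpar, hc.arc_eq hp hw a 1 hpar1] at h1
  have h2 : (1:ℝ) - P T (fun ω => other (mate ω) w (e 3) = e 0) =
      P T (fun ω => ¬ other (mate ω) w (e 3) = e 0) := by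
    have := P_compl T (fun ω => other (mate ω) w (e 3) = e 0)
    linarith
  rw [h2]
  refine Eq.trans (P_congr fun ω _ => ?_) h1
  have h3 := hM.other_eq_prev (ω := ω) hG hS hw.toWall 3
  have h4 := hM.other_cases (ω := ω) hG hw.toWall hκ 3
  have h5 : (e (3 + 1) : Half (ℤ × ℤ)) = e 0 := rfl
  have h6 : (e (3 + 3) : Half (ℤ × ℤ)) = e 2 := rfl
  rw [h5, h6] at h4
  rw [h6] at h3
  have h7 : e 0 ≠ e 2 := fun h => absurd (hc.inj h) (by decide)
  constructor
  · intro h
    exact h3.1 (h4.resolve_left h)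
  · intro h h8
    exact h7 (h8.symm.trans (h3.2 h))

end plane

end Full
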