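import Pool.Agent.Full.Dict.Obs
import Pool.Agent.Full.Dict.Closed
import Pool.Agent.Full.Def.Stat
import Pool.Agent.Full.End.Sand
import Pool.Agent.Full.Def.Inst
import Pool.Agent.Helper69.RSW.Bridge

/-!
# Tiles and edges of the square lattice

`crn x` is the tail of the half edge `x` of the plane.  The diagonal of a tile between even points is
present iff (bit `true` and the tile is even) or (bit `false` and the tile is odd): then the edge `bond t`
of `ℤ²` is open.  `perc_joins`: in an unpinched region the probability that two even arcs are joined is the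
probability of `CrossT` for critical bond percolation.
-/

set_option autoImplicit false

namespace Full
open Function Relation Pool.Agent.Helper69.RSW H47Perc

namespace Dict

@[simp] lemma crn_S (t : ℤ × ℤ) : crn (t, .S) = t := rfl
@[simp] lemma crn_E (t : ℤ × ℤ) : crn (t, .E) = (t.1 + 1, t.2) := rfl
@[simp] lemma crn_N (t : ℤ × ℤ) : crn (t, .N) = (t.1 + 1, t.2 + 1) := rfl
@[simp] lemma crn_W (t : ℤ × ℤ) : crn (t, .W) = (t.1, t.2 + 1) := rfl

/-- the other side of a glued half edge starts at its head -/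
lemma crn_glue {T : Finset (ℤ × ℤ)} {x : Half (ℤ × ℤ)} (h : plane.glue T x ≠ x) :
    crn (plane.glue T x) = crn (rho x) := by
  obtain ⟨t, d⟩ := x
  rw [plane_glue] at h ⊢
  split_ifs at h ⊢ with h1
  · obtain ⟨i, j⟩ := t
    cases d <;> simp [Dir.vec, Dir.opp, rho, Dir.ccw]
  · exact absurd rfl h

lemma corner_crn (T : Finset (ℤ × ℤ)) : Corner (plane.glue T) crn := fun _ => crn_glue

/-- even points have the colour `0` -/
def par (v : ℤ × ℤ) : ZMod 2 := ((v.1 + v.2 : ℤ) : ZMod 2)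

lemma par_eq_zero {v : ℤ × ℤ} : par v = 0 ↔ Even (v.1 + v.2) := by
  unfold par
  rw [ZMod.intCast_zmod_eq_zero_iff_dvd, even_iff_two_dvd]
  norm_cast

lemma par_rho (x : Half (ℤ × ℤ)) : par (crn (rho x)) = par (crn x) + 1 := by
  have two : (1 : ZMod 2) + 1 = 0 := by decide
  obtain ⟨t, d⟩ := x
  cases d <;> simp only [rho, Dir.ccw, crn_S, crn_E, crn_N, crn_W, par] <;> push_cast
  · ring
  · linear_combination -two
  · linear_combination -two
  · ring

theorem colouring_plane (T : Finset (ℤ × ℤ)) : Colouring T (plane.glue T) (fun x => par (crn x)) := by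
  refine ⟨fun x hx => ?_, fun x _ => par_rho x⟩
  rw [crn_glue hx]

/-- a step along a diagonal of the tiling configuration -/
def DStep (T ω : Finset (ℤ × ℤ)) (v v' : ℤ × ℤ) : Prop :=
  ∃ t ∈ T, (t ∈ ω ∧ ((v = t ∧ v' = (t.1 + 1, t.2 + 1)) ∨ (v' = t ∧ v = (t.1 + 1, t.2 + 1)))) ∨
    (t ∉ ω ∧ ((v = (t.1 + 1, t.2) ∧ v' = (t.1, t.2 + 1)) ∨ (v' = (t.1 + 1, t.2) ∧ v = (t.1, t.2 + 1))))

lemma DStep.symm {T ω : Finset (ℤ × ℤ)} {v v' : ℤ × ℤ} (h : DStep T ω v v') : DStep T ω v' v := by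
  obtain ⟨t, ht, h⟩ := h
  exact ⟨t, ht, h.imp (fun h => ⟨h.1, h.2.symm⟩) (fun h => ⟨h.1, h.2.symm⟩)⟩

lemma dpath_symm {T ω : Finset (ℤ × ℤ)} {v v' : ℤ × ℤ} (h : ReflTransGen (DStep T ω) v v') :
    ReflTransGen (DStep T ω) v' v := by
  induction h with
  | refl => exact ReflTransGen.refl
  | tail _ h ih => exact ReflTransGen.head h.symm ih

lemma dstep_of_diag {T ω : Finset (ℤ × ℤ)} {x y : Half (ℤ × ℤ)} (h : Diag T ω x y) :
    DStep T ω (crn x) (crn y) := by
  obtain ⟨hx, hm, rfl⟩ := h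
  obtain ⟨t, d⟩ := x
  refine ⟨t, hx, ?_⟩
  have h1 : Dir.mt (decide (t ∈ ω)) d = d.ccw := congrArg Prod.snd hm
  by_cases hb : t ∈ ω
  · left
    refine ⟨hb, ?_⟩
    rw [decide_eq_true hb] at h1
    cases d
    · exact absurd h1 (by decide)
    · right; exact ⟨rfl, rfl⟩
    · exact absurd h1 (by decide)
    · left; exact ⟨rfl, rfl⟩
  · right
    refine ⟨hb, ?_⟩
    rw [decide_eq_false hb] at h1
    cases d
    · left; exact ⟨rfl, rfl⟩
    · exact absurd h1 (by decide)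
    · right; exact ⟨rfl, rfl⟩
    · exact absurd h1 (by decide)

/-- a cluster of corners is a cluster of lattice points -/
lemma dpath_of_clu {T ω : Finset (ℤ × ℤ)} {x y : Half (ℤ × ℤ)} (h : Clu T (plane.glue T) ω x y) :
    ReflTransGen (DStep T ω) (crn x) (crn y) := by
  induction h with
  | rel a b h =>
    rcases h with ⟨h1, rfl⟩ | h
    · have h2 : plane.glue T (plane.glue T a) ≠ plane.glue T a := by
        rw [Surf.glue_glue]; exact Ne.symm h1
      have h3 := crn_glue h2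
      rw [Surf.glue_glue] at h3
      rw [h3]
    · exact ReflTransGen.single (dstep_of_diag h)
  | refl a => exact ReflTransGen.refl
  | symm a b _ ih => exact dpath_symm ih
  | trans a b c _ _ ih1 ih2 => exact ih1.trans ih2

/-! ### unpinched regions -/

/-- no two tiles of the region touch each other only at a corner -/
def NoPinch (T : Finset (ℤ × ℤ)) : Prop :=
  ∀ i j : ℤ, ((i, j) ∈ T → (i + 1, j + 1) ∈ T → (i + 1, j) ∈ T ∨ (i, j + 1) ∈ T) ∧
    ((i + 1, j) ∈ T → (i, j + 1) ∈ T → (i, j) ∈ T ∨ (i + 1, j + 1) ∈ T)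

/-- the corners of an unpinched region are the lattice points -/
lemma NoPinch.clu {T : Finset (ℤ × ℤ)} (hT : NoPinch T) {r : Half (ℤ × ℤ) → Half (ℤ × ℤ) → Prop}
    (hr : ∀ x y, Same (plane.glue T) x y → r x y) {x y : Half (ℤ × ℤ)} (hx : x.1 ∈ T) (hy : y.1 ∈ T)
    (h : crn x = crn y) : EqvGen r x y := by
  -- the four corners at the point `(i + 1, j + 1)`
  have hSame : ∀ t d, t ∈ T → t + Dir.vec d ∈ T → EqvGen r (t, d) (rho (t + Dir.vec d, d.opp)) := by
    intro t d h1 h2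
    have h3 : plane.glue T (t, d) = (t + d.vec, d.opp) := by
      rw [plane_glue, if_pos ⟨h1, h2⟩]
    refine EqvGen.rel _ _ (hr _ _ ⟨?_, by rw [h3]⟩)
    rw [h3]
    intro h4
    exact Dir.opp_ne d (congrArg Prod.snd h4)
  have key : ∀ i j : ℤ,
      ((i, j) ∈ T → (i + 1, j) ∈ T → EqvGen r ((i, j), Dir.N) ((i + 1, j), Dir.W)) ∧
      ((i, j + 1) ∈ T → (i + 1, j + 1) ∈ T → EqvGen r ((i, j + 1), Dir.E) ((i + 1, j + 1), Dir.S)) ∧
      ((i, j) ∈ T → (i, j + 1) ∈ T → EqvGen r ((i, j), Dir.N) ((i, j + 1), Dir.E)) ∧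
      ((i + 1, j) ∈ T → (i + 1, j + 1) ∈ T → EqvGen r ((i + 1, j), Dir.W) ((i + 1, j + 1), Dir.S)) := by
    intro i j
    refine ⟨fun h1 h2 => ?_, fun h1 h2 => ?_, fun h1 h2 => ?_, fun h1 h2 => ?_⟩
    · have := hSame (i + 1, j) Dir.W h2 (by simpa [Dir.vec] using h1)
      simp only [Dir.vec, Dir.opp, rho, Dir.ccw, Prod.mk_add_mk, add_zero, add_neg_cancel_right] at this
      exact this.symm
    · have := hSame (i, j + 1) Dir.E h1 (by simpa [Dir.vec] using h2)
      simp only [Dir.vec, Dir.opp, rho, Dir.ccw, Prod.mk_add_mk, add_zero] at this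
      exact this
    · have := hSame (i, j) Dir.N h1 (by simpa [Dir.vec] using h2)
      simp only [Dir.vec, Dir.opp, rho, Dir.ccw, Prod.mk_add_mk, add_zero] at this
      exact this
    · have := hSame (i + 1, j + 1) Dir.S h2 (by simpa [Dir.vec] using h1)
      simp only [Dir.vec, Dir.opp, rho, Dir.ccw, Prod.mk_add_mk, add_zero, add_neg_cancel_right] at this
      exact this.symm
  set i := (crn x).1 - 1 with hi
  set j := (crn x).2 - 1 with hj
  have cases4 : ∀ z : Half (ℤ × ℤ), z.1 ∈ T → crn z = crn x →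
      ((i + 1, j + 1) ∈ T ∧ z = ((i + 1, j + 1), Dir.S)) ∨ ((i, j + 1) ∈ T ∧ z = ((i, j + 1), Dir.E)) ∨
      ((i, j) ∈ T ∧ z = ((i, j), Dir.N)) ∨ ((i + 1, j) ∈ T ∧ z = ((i + 1, j), Dir.W)) := by
    rintro ⟨⟨a, b⟩, d⟩ hz hzx
    have h1 : (crn ((a, b), d)).1 = i + 1 := by rw [hzx, hi]; ring
    have h2 : (crn ((a, b), d)).2 = j + 1 := by rw [hzx, hj]; ring
    clear_value i j
    cases d <;> simp only [crn_S, crn_E, crn_N, crn_W, add_left_inj] at h1 h2 <;> subst h1 <;> subst h2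
    · exact Or.inr (Or.inl ⟨hz, rfl⟩)
    · exact Or.inr (Or.inr (Or.inl ⟨hz, rfl⟩))
    · exact Or.inr (Or.inr (Or.inr ⟨hz, rfl⟩))
    · exact Or.inl ⟨hz, rfl⟩
  obtain ⟨k1, k2, k3, k4⟩ := key i j
  obtain ⟨p1, p2⟩ := hT i j
  have d1 : (i, j) ∈ T → (i + 1, j + 1) ∈ T → EqvGen r ((i, j), Dir.N) ((i + 1, j + 1), Dir.S) := by
    intro a c
    rcases p1 a c with b | b
    · exact (k1 a b).trans _ _ _ (k4 b c)
    · exact (k3 a b).trans _ _ _ (k2 b c)
  have d2 : (i + 1, j) ∈ T → (i, j + 1) ∈ T → EqvGen r ((i + 1, j), Dir.W) ((i, j + 1), Dir.E) := by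
    intro a c
    rcases p2 a c with b | b
    · exact ((k1 b a).symm).trans _ _ _ (k3 b c)
    · exact (k4 a b).trans _ _ _ (k2 c b).symm
  rcases cases4 x hx rfl with ⟨a, e⟩ | ⟨a, e⟩ | ⟨a, e⟩ | ⟨a, e⟩ <;>
    rcases cases4 y hy h.symm with ⟨b, f⟩ | ⟨b, f⟩ | ⟨b, f⟩ | ⟨b, f⟩ <;> rw [e, f]
  · exact EqvGen.refl _
  · exact (k2 b a).symm
  · exact (d1 b a).symm
  · exact (k4 b a).symm
  · exact k2 a b
  · exact EqvGen.refl _
  · exact (k3 b a).symm
  · exact (d2 b a).symm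
  · exact d1 a b
  · exact k3 a b
  · exact EqvGen.refl _
  · exact k1 a b
  · exact k4 a b
  · exact d2 a b
  · exact (k1 b a).symm
  · exact EqvGen.refl _

/-! ### the law -/

/-- the edge of the tile `t` of the region shifted by `i` -/
def bondi (i : ℤ) (t : ℤ × ℤ) : Sym2 (ℤ × ℤ) := bond (t.1 + i, t.2)

lemma bondi_inj (i : ℤ) : Injective (bondi i) := by
  intro s t h
  have h1 := bond_inj h
  rw [Prod.mk.injEq, add_left_inj] at h1
  exact Prod.ext h1.1 h1.2

/-- the open edges of a tiling configuration -/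
def bonds (i : ℤ) (T ω : Finset (ℤ × ℤ)) : Finset (Sym2 (ℤ × ℤ)) :=
  (T.filter fun t => t ∈ ω ↔ Even (t.1 + i + t.2)).image (bondi i)

lemma mem_bonds {i : ℤ} {T ω : Finset (ℤ × ℤ)} {t : ℤ × ℤ} (ht : t ∈ T) :
    bondi i t ∈ bonds i T ω ↔ (t ∈ ω ↔ Even (t.1 + i + t.2)) := by
  unfold bonds
  rw [Finset.mem_image]
  constructor
  · rintro ⟨s, hs, h⟩
    rw [bondi_inj i h, Finset.mem_filter] at hs
    exact hs.2
  · intro h
    exact ⟨t, Finset.mem_filter.2 ⟨ht, h⟩, rfl⟩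

/-- the number of configurations is preserved by a bijection -/
lemma P_bij {E E' : Type*} [DecidableEq E] [DecidableEq E'] {F : Finset E} {F' : Finset E'}
    (hc : F.card = F'.card) {φ : Finset E → Finset E'} {ψ : Finset E' → Finset E}
    (h1 : ∀ S ⊆ F, φ S ⊆ F') (h2 : ∀ S ⊆ F', ψ S ⊆ F) (h3 : ∀ S ⊆ F, ψ (φ S) = S)
    (h4 : ∀ S ⊆ F', φ (ψ S) = S) (A : Finset E' → Prop) : P F (fun S => A (φ S)) = P F' A := by
  classical
  unfold P
  rw [hc]
  congr 2
  refine Finset.card_nbij' (i := φ) (j := ψ) ?_ ?_ ?_ ?_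
  · intro S hS
    rw [Finset.mem_coe, Finset.mem_filter, Finset.mem_powerset] at hS ⊢
    exact ⟨h1 S hS.1, hS.2⟩
  · intro S hS
    rw [Finset.mem_coe, Finset.mem_filter, Finset.mem_powerset] at hS ⊢
    exact ⟨h2 S hS.1, by rw [h4 S hS.1]; exact hS.2⟩
  · intro S hS
    rw [Finset.mem_coe, Finset.mem_filter, Finset.mem_powerset] at hS
    exact h3 S hS.1
  · intro S hS
    rw [Finset.mem_coe, Finset.mem_filter, Finset.mem_powerset] at hS
    exact h4 S hS.1

/-- **the law of the open edges** is critical percolation on the edges of the region -/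
theorem P_bonds (i : ℤ) (T : Finset (ℤ × ℤ)) (A : Finset (Sym2 (ℤ × ℤ)) → Prop) :
    P T (fun ω => A (bonds i T ω)) = P (T.image (bondi i)) A := by
  classical
  refine P_bij (ψ := fun S => T.filter fun t => bondi i t ∈ S ↔ Even (t.1 + i + t.2))
    (Finset.card_image_of_injective _ (bondi_inj i)).symm ?_ ?_ ?_ ?_ A
  · intro S _
    exact Finset.image_subset_image (Finset.filter_subset _ _)
  · intro S _
    exact Finset.filter_subset _ _
  · intro S hS
    ext t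
    rw [Finset.mem_filter]
    constructor
    · rintro ⟨ht, h⟩
      rw [mem_bonds ht] at h
      tauto
    · intro h
      refine ⟨hS h, ?_⟩
      rw [mem_bonds (hS h)]
      tauto
  · intro S hS
    ext e
    constructor
    · intro he
      unfold bonds at he
      rw [Finset.mem_image] at he
      obtain ⟨t, ht, rfl⟩ := he
      rw [Finset.mem_filter, Finset.mem_filter] at ht
      tauto
    · intro he
      obtain ⟨t, ht, rfl⟩ := Finset.mem_image.1 (hS he)
      rw [mem_bonds ht, Finset.mem_filter]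
      tauto

/-- the tiles of the shifted region -/
def shT (i : ℤ) (T : Finset (ℤ × ℤ)) : Set (ℤ × ℤ) := {p | (p.1 - i, p.2) ∈ T}

lemma crossT_dep (i : ℤ) (T : Finset (ℤ × ℤ)) (VL VR : Set (ℤ × ℤ)) :
    Dep (T.image (bondi i)) (CrossT (shT i T) VL VR) := by
  have key : ∀ S w w', TStep (shT i T) S w w' ↔ TStep (shT i T) (S ∩ T.image (bondi i)) w w' := by
    intro S w w'
    unfold TStep
    refine exists_congr fun p => ?_
    constructor
    · rintro ⟨h1, h2, h3⟩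
      refine ⟨h1, Finset.mem_inter.2 ⟨h2, ?_⟩, h3⟩
      refine Finset.mem_image.2 ⟨(p.1 - i, p.2), h1, ?_⟩
      unfold bondi
      rw [sub_add_cancel]
    · rintro ⟨h1, h2, h3⟩
      exact ⟨h1, (Finset.mem_inter.1 h2).1, h3⟩
  intro S
  have h2 : TStep (shT i T) S = TStep (shT i T) (S ∩ T.image (bondi i)) := by
    funext w w'
    exact propext (key S w w')
  unfold CrossT
  rw [h2]

theorem perc_crossT {i : ℤ} {T : Finset (ℤ × ℤ)} (VL VR : Set (ℤ × ℤ)) {S : Finset (ℤ × ℤ)}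
    (hS : T.image (bondi i) ⊆ edgesIn S) :
    perc half S (CrossT (shT i T) VL VR) = P T (fun ω => CrossT (shT i T) VL VR (bonds i T ω)) := by
  rw [perc_half_eq, P_restrict hS (crossT_dep i T VL VR), P_bonds]

/-- the edge of a tile is an edge of the square lattice -/
lemma bond_mem_edgesIn {p : ℤ × ℤ} {S : Finset (ℤ × ℤ)} (h1 : pv (cA p) ∈ S) (h2 : pv (cB p) ∈ S) :
    bond p ∈ edgesIn S := by
  classical
  unfold bond edgesIn
  rw [Finset.mem_filter, Finset.mk_mem_sym2_iff, SimpleGraph.mem_edgeSet]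
  refine ⟨⟨h1, h2⟩, ?_⟩
  by_cases hp : Even (p.1 + p.2)
  · right
    obtain ⟨k, hk⟩ := hp
    have hA : cA p = p := by unfold cA; rw [if_pos ⟨k, hk⟩]
    have hB : cB p = (p.1 + 1, p.2 + 1) := by unfold cB; rw [if_pos ⟨k, hk⟩]
    rw [hA, hB]
    unfold pv
    have e1 : (p.2 - p.1) / 2 = (p.2 + 1 - (p.1 + 1)) / 2 := by omega
    have e2 : (p.1 + p.2) / 2 - (p.1 + 1 + (p.2 + 1)) / 2 = -1 := by omega
    exact ⟨e1, by show |(p.1 + p.2) / 2 - (p.1 + 1 + (p.2 + 1)) / 2| = 1; rw [e2]; rfl⟩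
  · left
    have hp' := Int.not_even_iff_odd.1 hp
    obtain ⟨k, hk⟩ := hp'
    have hA : cA p = (p.1 + 1, p.2) := by unfold cA; rw [if_neg hp]
    have hB : cB p = (p.1, p.2 + 1) := by unfold cB; rw [if_neg hp]
    rw [hA, hB]
    unfold pv
    have e1 : (p.1 + 1 + p.2) / 2 = (p.1 + (p.2 + 1)) / 2 := by omega
    have e2 : (p.2 - (p.1 + 1)) / 2 - (p.2 + 1 - p.1) / 2 = -1 := by omega
    exact ⟨e1, by show |(p.2 - (p.1 + 1)) / 2 - (p.2 + 1 - p.1) / 2| = 1; rw [e2]; rfl⟩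

/-! ### diagonals and open edges -/

/-- the shifted point -/
def shv (i : ℤ) (v : ℤ × ℤ) : ℤ × ℤ := (v.1 + i, v.2)

lemma cAB_even {p : ℤ × ℤ} (h : Even (p.1 + p.2)) : cA p = p ∧ cB p = (p.1 + 1, p.2 + 1) := by
  unfold cA cB
  rw [if_pos h, if_pos h]
  exact ⟨rfl, rfl⟩

lemma cAB_odd {p : ℤ × ℤ} (h : ¬ Even (p.1 + p.2)) : cA p = (p.1 + 1, p.2) ∧ cB p = (p.1, p.2 + 1) := by
  unfold cA cB
  rw [if_neg h, if_neg h]
  exact ⟨rfl, rfl⟩

lemma tstep_iff {i : ℤ} {T ω : Finset (ℤ × ℤ)} {v v' : ℤ × ℤ} (hv : Even (v.1 + i + v.2)) :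
    TStep (shT i T) (bonds i T ω) (shv i v) (shv i v') ↔ DStep T ω v v' := by
  obtain ⟨a, b⟩ := v
  obtain ⟨a', b'⟩ := v'
  constructor
  · rintro ⟨⟨x, y⟩, hp, hb, h⟩
    have hp' : (x - i, y) ∈ T := hp
    have hbp : bond (x, y) = bondi i (x - i, y) := by
      unfold bondi
      rw [sub_add_cancel]
    rw [hbp, mem_bonds hp', sub_add_cancel] at hb
    refine ⟨(x - i, y), hp', ?_⟩
    by_cases he : Even (x + y)
    · left
      refine ⟨hb.2 he, ?_⟩
      obtain ⟨e1, e2⟩ := cAB_even (p := (x, y)) he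
      rw [e1, e2] at h
      simp only [shv, Prod.mk.injEq] at h ⊢
      omega
    · right
      refine ⟨fun h1 => he (hb.1 h1), ?_⟩
      obtain ⟨e1, e2⟩ := cAB_odd (p := (x, y)) he
      rw [e1, e2] at h
      simp only [shv, Prod.mk.injEq] at h ⊢
      omega
  · rintro ⟨⟨x, y⟩, hp, h⟩
    have hmem : (x + i, y) ∈ shT i T := by
      show (x + i - i, y) ∈ T
      rw [add_sub_cancel_right]; exact hp
    refine ⟨(x + i, y), hmem, ?_⟩
    have hbp : bond (x + i, y) = bondi i (x, y) := rfl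
    rw [hbp, mem_bonds hp]
    simp only [Prod.mk.injEq, Int.even_iff] at h hv ⊢
    rcases h with ⟨h1, h2⟩ | ⟨h1, h2⟩
    · have he : (x + i + y) % 2 = 0 := by omega
      obtain ⟨e1, e2⟩ := cAB_even (p := (x + i, y)) (Int.even_iff.2 he)
      rw [e1, e2]
      simp only [shv, Prod.mk.injEq]
      refine ⟨⟨fun _ => he, fun _ => h1⟩, ?_⟩
      omega
    · have he : ¬ (x + i + y) % 2 = 0 := by omega
      obtain ⟨e1, e2⟩ := cAB_odd (p := (x + i, y)) (fun h => he (Int.even_iff.1 h))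
      rw [e1, e2]
      simp only [shv, Prod.mk.injEq]
      refine ⟨⟨fun h => absurd h h1, fun h => absurd h he⟩, ?_⟩
      omega

lemma DStep.even {T ω : Finset (ℤ × ℤ)} {v v' : ℤ × ℤ} {i : ℤ} (h : DStep T ω v v')
    (hv : Even (v.1 + i + v.2)) : Even (v'.1 + i + v'.2) := by
  obtain ⟨t, -, h⟩ := h
  rw [Int.even_iff] at hv ⊢
  rcases h with ⟨-, ⟨rfl, rfl⟩ | ⟨rfl, rfl⟩⟩ | ⟨-, ⟨rfl, rfl⟩ | ⟨rfl, rfl⟩⟩ <;> simp only at hv ⊢ <;> omega

lemma tpath_of_dpath {i : ℤ} {T ω : Finset (ℤ × ℤ)} {v v' : ℤ × ℤ} (hv : Even (v.1 + i + v.2))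
    (h : ReflTransGen (DStep T ω) v v') :
    ReflTransGen (TStep (shT i T) (bonds i T ω)) (shv i v) (shv i v') ∧ Even (v'.1 + i + v'.2) := by
  induction h with
  | refl => exact ⟨ReflTransGen.refl, hv⟩
  | @tail b c _ h2 ih => exact ⟨ih.1.tail ((tstep_iff ih.2).2 h2), h2.even ih.2⟩

lemma dpath_of_tpath {i : ℤ} {T ω : Finset (ℤ × ℤ)} {v : ℤ × ℤ} {u : ℤ × ℤ} (hv : Even (v.1 + i + v.2))
    (h : ReflTransGen (TStep (shT i T) (bonds i T ω)) (shv i v) u) :
    ∃ v', u = shv i v' ∧ ReflTransGen (DStep T ω) v v' := by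
  induction h with
  | refl => exact ⟨v, rfl, ReflTransGen.refl⟩
  | @tail b c _ h2 ih =>
    obtain ⟨v', rfl, h3⟩ := ih
    have hc : c = shv i (c.1 - i, c.2) := by
      unfold shv
      rw [sub_add_cancel]
    rw [hc] at h2 ⊢
    exact ⟨_, rfl, h3.tail ((tstep_iff (tpath_of_dpath hv h3).2).1 h2)⟩

/-- in an unpinched region a path of lattice points is a cluster of corners -/
lemma clu_of_dpath {T ω : Finset (ℤ × ℤ)} (hT : NoPinch T) {x : Half (ℤ × ℤ)} (hx : x.1 ∈ T) {v : ℤ × ℤ}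
    (h : ReflTransGen (DStep T ω) (crn x) v) :
    ∀ y : Half (ℤ × ℤ), y.1 ∈ T → crn y = v → Clu T (plane.glue T) ω x y := by
  have hr : ∀ x y, Same (plane.glue T) x y → (Same (plane.glue T) x y ∨ Diag T ω x y) :=
    fun _ _ h => Or.inl h
  induction h with
  | refl => exact fun y hy h => hT.clu hr hx hy h.symm
  | @tail b c _ h2 ih =>
    intro y hy hyc
    obtain ⟨t, ht, h2⟩ := h2
    have key : ∀ d : Dir, crn (t, d) = b → crn (rho (rho (t, d))) = c → mate ω (t, d) = rho (t, d) →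
        Clu T (plane.glue T) ω x y := by
      intro d h3 h4 h5
      have h6 := ih (t, d) ht h3
      have h7 : Clu T (plane.glue T) ω (t, d) (rho (rho (t, d))) :=
        EqvGen.rel _ _ (Or.inr ⟨ht, h5, rfl⟩)
      have h8 : Clu T (plane.glue T) ω (rho (rho (t, d))) y :=
        hT.clu hr (by exact ht) hy (by rw [h4, hyc])
      exact (h6.trans _ _ _ h7).trans _ _ _ h8
    rcases h2 with ⟨ho, ⟨rfl, rfl⟩ | ⟨rfl, rfl⟩⟩ | ⟨ho, ⟨rfl, rfl⟩ | ⟨rfl, rfl⟩⟩
    · refine key .S rfl rfl ?_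
      unfold mate
      rw [decide_eq_true ho]; rfl
    · refine key .N rfl rfl ?_
      unfold mate
      rw [decide_eq_true ho]; rfl
    · refine key .E rfl rfl ?_
      unfold mate
      rw [decide_eq_false ho]; rfl
    · refine key .W rfl rfl ?_
      unfold mate
      rw [decide_eq_false ho]; rfl

end Dict

end Full
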