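import Pool.Agent.Full.Dict.Side

/-!
# Four marks on the boundary

A simply connected region with closed walls and four ends `e 0, e 1, e 2, e 3`, in this order.  `arc i` is
the wired part of the boundary between `e i` and `e (i + 1)`.  The strand of `e 3` ends at `e 0` or at
`e 2`; it ends at `e 0` iff the arcs `2` and `0` are joined by diagonals inside the region, and at `e 2`
iff the arcs `1` and `3` are.
-/

set_option autoImplicit false

namespace Full
open Function Relation

variable {τ : Type*}

/-- four marks on the boundary of a region with closed walls -/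
structure Marks (T : Finset τ) (g w : Half τ → Half τ) (e : Fin 4 → Half τ) : Prop where
  /-- the marks are the ends of the walls -/
  bd : ∀ x, Bd T w x ↔ ∃ i, x = e i
  /-- the head of a mark is wired to the tail of the next mark -/
  arc : ∀ i, Wd T g w (rho (e i)) (e (i + 1))
  /-- the marks are different -/
  inj : Injective e
  /-- there are no other walls -/
  all : ∀ x y, Wire T g w x y → ∃ i, Wd T g w (rho (e i)) x

/-- a colouring of the corners -/
structure Colouring (T : Finset τ) (g : Half τ → Half τ) (κ : Half τ → ZMod 2) : Prop where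
  corner : Corner g κ
  step : ∀ x : Half τ, x.1 ∈ T → κ (rho x) = κ x + 1

theorem SC.exists_colouring {T : Finset τ} {g : Half τ → Half τ} (h : SC T g) :
    ∃ κ, Colouring T g κ := by
  obtain ⟨c, hc, h1⟩ := h (fun _ => 1) (fun _ => rfl) (fun t _ => by
    rw [Dir.sum_dir]
    decide)
  exact ⟨c, hc, h1⟩

section
variable [DecidableEq τ] {T : Finset τ} {g w : Half τ → Half τ} {ω : Finset τ} {e : Fin 4 → Half τ}
  {κ : Half τ → ZMod 2}

omit [DecidableEq τ] in
lemma rho_mem {x : Half τ} (h : x.1 ∈ T) : (rho x).1 ∈ T := h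

/-- a function on the half edges which is compatible with the corners, adds `χ x` along `x`, and `χ` is
invariant under `mate` and the wall: it is constant on the clusters and along the walls -/
lemma const_cluW {c χ : Half τ → ZMod 2} (hG : Glu T g) (hc : Corner g c)
    (h1 : ∀ x : Half τ, x.1 ∈ T → c (rho x) = c x + χ x)
    (h2 : ∀ x : Half τ, x.1 ∈ T → χ (mate ω x) = χ x) (h3 : ∀ x : Half τ, x.1 ∈ T → χ (w x) = χ x)
    {x y : Half τ} (h : CluW T g w ω x y) : c x = c y := by
  have two : ∀ a : ZMod 2, a + a = 0 := by decide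
  induction h with
  | rel x y h =>
    rcases h with (⟨h, rfl⟩ | ⟨hx, hm, rfl⟩) | ⟨hx, hw, rfl⟩
    · have h4 := hc (g x) (fun h5 => h (by rw [hG.inv] at h5; exact h5.symm))
      rw [hG.inv] at h4
      exact h4
    · rw [h1 _ (rho_mem hx), h1 _ hx, ← hm, h2 _ hx, add_assoc, two, add_zero]
    · have hwT : (w x).1 ∈ T := by rw [hw]; exact hG.next_mem hx.1
      rw [h1 _ hwT, h3 _ hx.1, hw, hG.corner_next hc hx.2, h1 _ hx.1, add_assoc, two, add_zero]
  | refl x => rfl
  | symm x y _ ih => exact ih.symm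
  | trans x y z _ _ ih1 ih2 => exact ih1.trans ih2

lemma Colouring.cluW (hκ : Colouring T g κ) (hG : Glu T g) {x y : Half τ}
    (h : CluW T g w ω x y) : κ x = κ y :=
  const_cluW (ω := ω) (w := w) (χ := fun _ => 1) hG hκ.corner hκ.step (fun _ _ => rfl)
    (fun _ _ => rfl) h

lemma Wd.cluW {x y : Half τ} (h : Wd T g w x y) : CluW T g w ω x y := by
  refine EqvGen.mono ?_ x y h
  rintro a b (h | h)
  · exact Or.inl (Or.inl h)
  · exact Or.inr h

lemma Clu.cluW {x y : Half τ} (h : Clu T g ω x y) : CluW T g w ω x y := by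
  refine EqvGen.mono ?_ x y h
  intro a b h
  exact Or.inl h

omit [DecidableEq τ] in
lemma four_cases (i j : Fin 4) : j = i ∨ j = i + 1 ∨ j = i + 2 ∨ j = i + 3 := by
  revert i j; decide

omit [DecidableEq τ] in
lemma Marks.mem (hM : Marks T g w e) (i : Fin 4) : Bd T w (e i) := (hM.bd (e i)).2 ⟨i, rfl⟩

/-- the colours of the marks alternate -/
lemma Marks.colour_succ (hM : Marks T g w e) (hG : Glu T g) (hκ : Colouring T g κ) (i : Fin 4) :
    κ (e (i + 1)) = κ (e i) + 1 := by
  have h1 := hκ.cluW hG (ω := ∅) (hM.arc i).cluW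
  rw [← h1, hκ.step _ (hM.mem i).1]

/-- the strand of a mark ends at a mark of the other colour -/
lemma Marks.colour_other (hM : Marks T g w e) (hG : Glu T g) (hW : Wall T g w)
    (hκ : Colouring T g κ) (i : Fin 4) : κ (other (mate ω) w (e i)) = κ (e i) + 1 := by
  have h1 := hκ.cluW hG (sides_other (ω := ω) hG hW (hM.mem i)).2
  rw [← h1, hκ.step _ (hM.mem i).1]

/-- the colours of the marks -/
lemma Marks.colours (hM : Marks T g w e) (hG : Glu T g) (hκ : Colouring T g κ) (i : Fin 4) :
    κ (e (i + 1)) = κ (e i) + 1 ∧ κ (e (i + 2)) = κ (e i) ∧ κ (e (i + 3)) = κ (e i) + 1 := by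
  have s0 := hM.colour_succ hG hκ i
  have s1 := hM.colour_succ hG hκ (i + 1)
  have s2 := hM.colour_succ hG hκ (i + 2)
  rw [show i + 1 + 1 = i + 2 by rw [add_assoc]; rfl, s0] at s1
  rw [show i + 2 + 1 = i + 3 by rw [add_assoc]; rfl, s1] at s2
  have two : ∀ a : ZMod 2, a + 1 + 1 = a := by decide
  rw [two] at s1 s2
  exact ⟨s0, s1, s2⟩

/-- **(D1)** the strand of a mark ends at one of the two neighbouring marks -/
theorem Marks.other_cases (hM : Marks T g w e) (hG : Glu T g) (hW : Wall T g w)
    (hκ : Colouring T g κ) (i : Fin 4) :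
    other (mate ω) w (e i) = e (i + 1) ∨ other (mate ω) w (e i) = e (i + 3) := by
  have h1 := hM.colour_other hG hW hκ (ω := ω) i
  have h2 := hW.toGlu.other_bd (ω := ω) (hM.mem i)
  have h3 := hW.toGlu.other_ne (ω := ω) (hM.mem i)
  obtain ⟨j, hj⟩ := (hM.bd _).1 h2
  obtain ⟨-, s1, -⟩ := hM.colours hG hκ i
  have two : ∀ a : ZMod 2, a ≠ a + 1 := by decide
  have hij : j = i ∨ j = i + 1 ∨ j = i + 2 ∨ j = i + 3 := four_cases i j
  rw [hj] at h1 h3 ⊢
  rcases hij with rfl | rfl | rfl | rfl
  · exact absurd rfl h3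
  · exact Or.inl rfl
  · exfalso
    rw [s1] at h1
    exact two _ h1
  · exact Or.inr rfl

/-- the corners of the arc `i` -/
def Arc (T : Finset τ) (g w : Half τ → Half τ) (e : Fin 4 → Half τ) (i : Fin 4) (x : Half τ) : Prop :=
  Wd T g w (rho (e i)) x

/-- two arcs are joined by diagonals inside the region -/
def Joins (T : Finset τ) (g w : Half τ → Half τ) (ω : Finset τ) (e : Fin 4 → Half τ)
    (i j : Fin 4) : Prop :=
  ∃ x y, Arc T g w e i x ∧ Arc T g w e j y ∧ Clu T g ω x y

omit [DecidableEq τ] in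
lemma Arc.tail (hM : Marks T g w e) (i : Fin 4) : Arc T g w e i (e (i + 1)) := hM.arc i

omit [DecidableEq τ] in
lemma Arc.head (i : Fin 4) : Arc T g w e i (rho (e i)) := EqvGen.refl _

/-- a connection which may use the walls, between the arcs `i` and `i + 2`, contains a connection
without walls -/
lemma Marks.joins_of_cluW (hM : Marks T g w e) (hG : Glu T g) (hκ : Colouring T g κ)
    (i : Fin 4) {x y : Half τ} (hx : Arc T g w e i x) (hy : Arc T g w e (i + 2) y)
    (h : CluW T g w ω x y) : Joins T g w ω e i (i + 2) := by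
  by_contra hno
  -- the set of corners joined to the arc `i` is closed under all the steps
  have hcol : ∀ j a, Arc T g w e j a → κ a = κ (rho (e j)) := fun j a ha =>
    (hκ.cluW hG (ω := ∅) ha.cluW).symm
  have key : ∀ a b, CluW T g w ω a b → ((κ a = κ (rho (e i)) ∧ ∃ z, Arc T g w e i z ∧ Clu T g ω z a) ↔
      (κ b = κ (rho (e i)) ∧ ∃ z, Arc T g w e i z ∧ Clu T g ω z b)) := by
    intro a b hab
    induction hab with
    | rel a b hab =>
      have hκab : κ a = κ b := hκ.cluW hG (w := w) (ω := ω) (EqvGen.rel _ _ hab)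
      rcases hab with hab | hab
      · constructor
        · rintro ⟨h1, z, hz, hc⟩
          exact ⟨hκab ▸ h1, z, hz, hc.trans _ _ _ (EqvGen.rel _ _ hab)⟩
        · rintro ⟨h1, z, hz, hc⟩
          exact ⟨hκab ▸ h1, z, hz, hc.trans _ _ _ (EqvGen.symm _ _ (EqvGen.rel _ _ hab))⟩
      · -- a wire: both corners are in the same arc
        obtain ⟨j, hj⟩ := hM.all a b hab
        have hjb : Wd T g w (rho (e j)) b := hj.trans _ _ _ (EqvGen.rel _ _ (Or.inr hab))
        have hja : κ a = κ (rho (e j)) := hcol j a hj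
        -- the arc is `i` or `i + 2`
        have hcase : κ a = κ (rho (e i)) → j = i ∨ j = i + 2 := by
          intro h1
          have hij : j = i ∨ j = i + 1 ∨ j = i + 2 ∨ j = i + 3 := four_cases i j
          obtain ⟨c1, c2, c3⟩ := hM.colours hG hκ i
          have two : ∀ a : ZMod 2, a + 1 + 1 ≠ a + 1 := by decide
          rw [hja, hκ.step _ (hM.mem i).1, hκ.step _ (hM.mem j).1] at h1
          rcases hij with rfl | rfl | rfl | rfl
          · exact Or.inl rfl
          · rw [c1] at h1; exact absurd h1 (two _)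
          · exact Or.inr rfl
          · rw [c3] at h1; exact absurd h1 (two _)
        constructor
        · rintro ⟨h1, z, hz, hc⟩
          rcases hcase h1 with rfl | rfl
          · exact ⟨hκab ▸ h1, b, hjb, EqvGen.refl _⟩
          · exact absurd ⟨z, a, hz, hj, hc⟩ hno
        · rintro ⟨h1, z, hz, hc⟩
          rcases hcase (hκab ▸ h1) with rfl | rfl
          · exact ⟨hκab ▸ h1, a, hj, EqvGen.refl _⟩
          · exact absurd ⟨z, b, hz, hjb, hc⟩ hno
    | refl a => exact Iff.rfl
    | symm a b _ ih => exact ih.symm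
    | trans a b c _ _ ih1 ih2 => exact ih1.trans ih2
  obtain ⟨-, z, hz, hc⟩ := (key x y h).1 ⟨hcol i x hx, x, hx, EqvGen.refl _⟩
  exact hno ⟨z, y, hz, hy, hc⟩

/-- the strand of `e i` ends at `e (i + 1)`: the arcs `i + 3` and `i + 1` are joined -/
theorem Marks.joins_of_other (hM : Marks T g w e) (hG : Glu T g) (hW : Wall T g w)
    (hκ : Colouring T g κ) (i : Fin 4) (h : other (mate ω) w (e i) = e (i + 1)) :
    Joins T g w ω e (i + 3) (i + 1) := by
  have h1 := (sides_other (ω := ω) hG hW (hM.mem i)).1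
  rw [h] at h1
  have h2 : Arc T g w e (i + 3) (e i) := by
    have := Arc.tail hM (i + 3)
    rwa [show i + 3 + 1 = i by rw [add_assoc]; exact add_zero i] at this
  have e5 : i + 3 + 2 = i + 1 := by rw [add_assoc]; rfl
  have h3 := hM.joins_of_cluW hG hκ (i + 3) (x := e i) (y := rho (e (i + 1))) h2
    (by rw [e5]; exact Arc.head _) h1
  rwa [e5] at h3

/-- the strand of `e i` ends at `e (i + 3)`: the arcs `i` and `i + 2` are joined -/
theorem Marks.joins_of_other' (hM : Marks T g w e) (hG : Glu T g) (hW : Wall T g w)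
    (hκ : Colouring T g κ) (i : Fin 4) (h : other (mate ω) w (e i) = e (i + 3)) :
    Joins T g w ω e i (i + 2) := by
  have h1 := (sides_other (ω := ω) hG hW (hM.mem i)).2
  rw [h] at h1
  refine hM.joins_of_cluW hG hκ i (Arc.head _) ?_ h1
  have := Arc.tail hM (i + 2)
  rwa [show i + 2 + 1 = i + 3 by rw [add_assoc]; rfl] at this

open Classical in
/-- **planarity**: the strand of `e i` separates -/
theorem Marks.separates (hM : Marks T g w e) (hG : Glu T g) (hS : SC T g) (hW : Wall T g w)
    (i j : Fin 4) (h : other (mate ω) w (e i) = e j) : ∃ c : Half τ → ZMod 2,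
      (∀ x y, CluW T g w ω x y → c x = c y) ∧
      (∀ k, c (rho (e k)) = c (e k) + if k = i ∨ k = j then 1 else 0) := by
  have hWG := hW.toGlu
  have two : ∀ a : ZMod 2, a + a = 0 := by decide
  set χ : Half τ → ZMod 2 := fun x => if Conn (mate ω) w (e i) x then 1 else 0 with hχ
  have hm : ∀ x, χ (mate ω x) = χ x := by
    intro x
    have : Conn (mate ω) w (e i) (mate ω x) ↔ Conn (mate ω) w (e i) x := by
      constructor
      · intro h
        have := h.trans (Conn.m_step _)
        rwa [mate_mate] at this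
      · intro h
        exact h.trans (Conn.m_step _)
    simp only [hχ, this]
  have hw : ∀ x, χ (w x) = χ x := by
    intro x
    have : Conn (mate ω) w (e i) (w x) ↔ Conn (mate ω) w (e i) x := by
      constructor
      · intro h
        have := h.trans (Conn.g_step _)
        rwa [hW.inv] at this
      · intro h
        exact h.trans (Conn.g_step _)
    simp only [hχ, this]
  have hg : ∀ x, χ (g x) = χ x := by
    intro x
    by_cases hx : g x = x
    · rw [hx]
    · rw [← hW.ext x hx, hw]
  obtain ⟨c, hc, h1⟩ := hS χ hg (fun t _ => by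
    rw [Dir.sum_dir]
    have hS : ∀ d, χ (t, Dir.mt (decide (t ∈ ω)) d) = χ (t, d) := fun d => hm (t, d)
    cases hb : decide (t ∈ ω) with
    | true =>
      rw [hb] at hS
      have a1 : χ (t, Dir.E) = χ (t, Dir.S) := hS Dir.S
      have a2 : χ (t, Dir.N) = χ (t, Dir.W) := hS Dir.W
      rw [a1, a2, ← add_assoc (χ (t, Dir.W)), two, zero_add, two]
    | false =>
      rw [hb] at hS
      have a1 : χ (t, Dir.W) = χ (t, Dir.S) := hS Dir.S
      have a2 : χ (t, Dir.N) = χ (t, Dir.E) := hS Dir.E
      rw [a1, a2, two, add_zero, two])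
  refine ⟨c, fun x y hxy => const_cluW (ω := ω) (w := w) hG hc h1 (fun x _ => hm x)
    (fun x _ => hw x) hxy, fun k => ?_⟩
  rw [h1 _ (hM.mem k).1]
  congr 1
  have hk : Conn (mate ω) w (e i) (e k) ↔ (e k = e i ∨ e k = e j) := by
    rw [hWG.conn_iff (hM.mem i) (hM.mem k), h]
  simp only [hχ, hk]
  have h5 : (e k = e i ∨ e k = e j) ↔ (k = i ∨ k = j) := by
    constructor
    · rintro (h | h)
      · exact Or.inl (hM.inj h)
      · exact Or.inr (hM.inj h)
    · rintro (rfl | rfl)
      · exact Or.inl rfl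
      · exact Or.inr rfl
  simp only [h5]

/-- **(D2)** the strand of `e i` ends at the next mark iff the arcs `i + 3` and `i + 1` are joined -/
theorem Marks.other_eq_next (hM : Marks T g w e) (hG : Glu T g) (hS : SC T g) (hW : Wall T g w)
    (i : Fin 4) : other (mate ω) w (e i) = e (i + 1) ↔ Joins T g w ω e (i + 3) (i + 1) := by
  obtain ⟨κ, hκ⟩ := hS.exists_colouring
  refine ⟨hM.joins_of_other hG hW hκ i, ?_⟩
  rintro ⟨x, y, hx, hy, hxy⟩
  refine (hM.other_cases hG hW hκ i).resolve_right fun h => ?_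
  obtain ⟨c, h1, h2⟩ := hM.separates hG hS hW i (i + 3) h
  have a1 : c x = c (e i) := by
    have h3 := Arc.tail hM (i + 3)
    rw [show i + 3 + 1 = i by rw [add_assoc]; exact add_zero i] at h3
    exact (h1 _ _ hx.cluW).symm.trans (h1 _ _ h3.cluW)
  have a2 : c (rho (e (i + 1))) = c y := h1 _ _ hy.cluW
  have a3 : c (rho (e i)) = c (e (i + 1)) := h1 _ _ (hM.arc i).cluW
  have a4 : c x = c y := h1 _ _ hxy.cluW
  have b1 := h2 i
  have b2 := h2 (i + 1)
  have n1 : ¬ (i + 1 = i ∨ i + 1 = i + 3) := by clear * -; revert i; decide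
  rw [if_pos (Or.inl rfl)] at b1
  rw [if_neg n1, add_zero] at b2
  have key : c (e i) = c (e i) + 1 := by
    rw [← b1, a3, ← b2, a2, ← a4, a1]
  exact absurd key (by generalize c (e i) = z; revert z; decide)

/-- **(D2)** the strand of `e i` ends at the previous mark iff the arcs `i` and `i + 2` are joined -/
theorem Marks.other_eq_prev (hM : Marks T g w e) (hG : Glu T g) (hS : SC T g) (hW : Wall T g w)
    (i : Fin 4) : other (mate ω) w (e i) = e (i + 3) ↔ Joins T g w ω e i (i + 2) := by
  obtain ⟨κ, hκ⟩ := hS.exists_colouring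
  refine ⟨hM.joins_of_other' hG hW hκ i, ?_⟩
  rintro ⟨x, y, hx, hy, hxy⟩
  refine (hM.other_cases hG hW hκ i).resolve_left fun h => ?_
  obtain ⟨c, h1, h2⟩ := hM.separates hG hS hW i (i + 1) h
  have a1 : c (rho (e i)) = c x := h1 _ _ hx.cluW
  have a2 : c (rho (e (i + 2))) = c y := h1 _ _ hy.cluW
  have a3 : c (rho (e i)) = c (e (i + 1)) := h1 _ _ (hM.arc i).cluW
  have a4 : c x = c y := h1 _ _ hxy.cluW
  have a5 : c (rho (e (i + 1))) = c (e (i + 2)) := by
    have h3 := hM.arc (i + 1)
    rw [show i + 1 + 1 = i + 2 by rw [add_assoc]; rfl] at h3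
    exact h1 _ _ h3.cluW
  have b1 := h2 (i + 1)
  have b2 := h2 (i + 2)
  have n1 : ¬ (i + 2 = i ∨ i + 2 = i + 1) := by clear * -; revert i; decide
  rw [if_pos (Or.inr rfl)] at b1
  rw [if_neg n1, add_zero] at b2
  have key : c x = c x + 1 := by
    calc c x = c y := a4
      _ = c (e (i + 2)) := by rw [← a2, b2]
      _ = c (e (i + 1)) + 1 := by rw [← a5, b1]
      _ = c x + 1 := by rw [← a3, a1]
  exact absurd key (by generalize c x = z; revert z; decide)

/-- exactly one of the two connections exists -/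
theorem Marks.joins_iff_not (hM : Marks T g w e) (hG : Glu T g) (hS : SC T g) (hW : Wall T g w)
    (i : Fin 4) : Joins T g w ω e i (i + 2) ↔ ¬ Joins T g w ω e (i + 3) (i + 1) := by
  obtain ⟨κ, hκ⟩ := hS.exists_colouring
  rw [← hM.other_eq_prev hG hS hW i, ← hM.other_eq_next hG hS hW i]
  have hne : e (i + 1) ≠ e (i + 3) := fun h => by
    have h1 := hM.inj h
    have h2 : i + 1 ≠ i + 3 := by clear * -; revert i; decide
    exact h2 h1
  constructor
  · intro h h'
    exact hne (h'.symm.trans h)
  · intro h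
    exact (hM.other_cases hG hW hκ i).resolve_left h

end
end Full
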