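import Pool.Agent.Full.Dict.Edge

/-!
# The dictionary at the four marks

`Dict.dict_four`: in an unpinched simply connected plane region with closed walls and four marks, the
probability that the strand of `e 3` does not end at `e 0` is the probability of an open crossing from the
arc between `e 3` and `e 0` to the arc between `e 1` and `e 2` (critical bond percolation on `ℤ²`).
-/

set_option autoImplicit false

namespace Full
open Function Relation Pool.Agent.Helper69.RSW H47Perc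

namespace Dict

section
variable {τ : Type*} {T : Finset τ} {g w : Half τ → Half τ}

lemma wd_mem (hG : Glu T g) (hW : Wall T g w) {x y : Half τ} (h : Wd T g w x y) : x.1 ∈ T ↔ y.1 ∈ T := by
  induction h with
  | rel x y h =>
    rcases h with ⟨hx, rfl⟩ | ⟨hx, -, rfl⟩
    · have h1 : x.1 ∈ T := by
        by_contra h1
        exact hx (hG.out x h1)
      exact ⟨fun _ => hG.mem x h1, fun _ => h1⟩
    · exact ⟨fun _ => hW.mem x hx.1, fun _ => hx.1⟩
  | refl x => exact Iff.rfl
  | symm x y _ ih => exact ih.symm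
  | trans x y z _ _ ih1 ih2 => exact ih1.trans ih2

lemma arc_mem {e : Fin 4 → Half τ} (hG : Glu T g) (hW : Wall T g w) (hM : Marks T g w e) {i : Fin 4}
    {x : Half τ} (h : Full.Arc T g w e i x) : x.1 ∈ T :=
  (wd_mem hG hW h).1 (hM.mem i).1

lemma colour_iter {κ : Half τ → ZMod 2} (hG : Glu T g) (hκ : Colouring T g κ) {u : Half τ}
    (hu : Bd T g u) (k : ℕ) : κ ((next g)^[k] u) = κ u + k := by
  induction k with
  | zero => simp
  | succ k ih =>
    have hb := hG.bd_iter hu k
    rw [iterate_succ_apply', hG.corner_next hκ.corner hb.2, hκ.step _ hb.1, ih]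
    push_cast
    ring

end

variable {T : Finset (ℤ × ℤ)} {e : Fin 4 → Half (ℤ × ℤ)} {w : Half (ℤ × ℤ) → Half (ℤ × ℤ)}

lemma even_iff_par {i : ℤ} {v : ℤ × ℤ} : Even (v.1 + i + v.2) ↔ par v + (i : ZMod 2) = 0 := by
  unfold par
  rw [← Int.cast_add, ZMod.intCast_zmod_eq_zero_iff_dvd, even_iff_two_dvd, show v.1 + v.2 + i = v.1 + i + v.2 by ring]
  norm_cast

lemma crn_same {x y : Half (ℤ × ℤ)} (h : EqvGen (Same (plane.glue T)) x y) : crn x = crn y := by
  induction h with
  | rel x y h =>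
    obtain ⟨hx, rfl⟩ := h
    have h2 : plane.glue T (plane.glue T x) ≠ plane.glue T x := by
      rw [Surf.glue_glue]; exact Ne.symm hx
    have h3 := crn_glue h2
    rw [Surf.glue_glue] at h3
    exact h3
  | refl x => rfl
  | symm x y _ ih => exact ih.symm
  | trans x y z _ _ ih1 ih2 => exact ih1.trans ih2

/-- the even corners of an even arc -/
lemma mem_evArc (hW : Wall T (plane.glue T) w) {K : Fin 4 → ℕ}
    (hP : ∀ i, WPart T (plane.glue T) w (e i) (K i)) (hK : ∀ i, (next (plane.glue T))^[K i] (e i) = e (i + 1))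
    {i : ℤ} {j : Fin 4} (hj : Even ((crn (rho (e j))).1 + i + (crn (rho (e j))).2)) {p : ℤ × ℤ} :
    p ∈ evArc (plane.glue T) (e j) (e (j + 1)) i ↔
      ∃ x, Full.Arc T (plane.glue T) w e j x ∧ p = shv i (crn x) := by
  have hG := plane.glu T
  have hκ := colouring_plane T
  rw [even_iff_par] at hj
  have hcol : ∀ k : ℕ, par (crn ((next (plane.glue T))^[k] (e j))) = par (crn (e j)) + k :=
    fun k => colour_iter hG hκ (hP j).bd k
  have hrho : par (crn (rho (e j))) = par (crn (e j)) + 1 := par_rho _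
  have hpar : ∀ k : ℕ, Even ((crn ((next (plane.glue T))^[k] (e j))).1 + i +
      (crn ((next (plane.glue T))^[k] (e j))).2) ↔ Odd k := by
    intro k
    rw [even_iff_par, hcol]
    rw [hrho] at hj
    have h1 : par (crn (e j)) + (k : ZMod 2) + (i : ZMod 2) = (k : ZMod 2) - 1 := by
      linear_combination hj
    rw [h1, sub_eq_zero]
    rw [← ZMod.natCast_eq_one_iff_odd]
  unfold evArc
  rw [Set.mem_ofPred_eq]
  constructor
  · rintro ⟨hp, x, hx, rfl⟩
    rw [← hK j, (hP j).mem_btw] at hx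
    obtain ⟨k, hk0, hk, rfl⟩ := hx
    refine ⟨_, (hP j).wd hG hW k hk ?_, rfl⟩
    exact (hpar k).1 hp
  · rintro ⟨x, hx, rfl⟩
    obtain ⟨k, hk, ho, hxk⟩ := ((hP j).wd_iff hG hW).1 hx
    have h1 := crn_same hxk
    refine ⟨?_, (next (plane.glue T))^[k] (e j), ?_, ?_⟩
    · have h2 := (hpar k).2 ho
      rw [h1] at h2
      exact h2
    · rw [← hK j, (hP j).mem_btw]
      exact ⟨k, by obtain ⟨m, hm⟩ := ho; omega, hk, rfl⟩
    · rw [h1]; rfl

/-- two even arcs are joined iff the tile region is crossed -/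
theorem joins_iff_crossT (hT : NoPinch T) (hW : Wall T (plane.glue T) w) (hM : Marks T (plane.glue T) w e)
    {K : Fin 4 → ℕ} (hP : ∀ i, WPart T (plane.glue T) w (e i) (K i))
    (hK : ∀ i, (next (plane.glue T))^[K i] (e i) = e (i + 1)) {i : ℤ} {j l : Fin 4}
    (hj : Even ((crn (rho (e j))).1 + i + (crn (rho (e j))).2))
    (hl : Even ((crn (rho (e l))).1 + i + (crn (rho (e l))).2)) (ω : Finset (ℤ × ℤ)) :
    Joins T (plane.glue T) w ω e j l ↔ CrossT (shT i T) (evArc (plane.glue T) (e j) (e (j + 1)) i)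
      (evArc (plane.glue T) (e l) (e (l + 1)) i) (bonds i T ω) := by
  have hG := plane.glu T
  constructor
  · rintro ⟨x, y, hx, hy, hxy⟩
    have h1 : shv i (crn x) ∈ evArc (plane.glue T) (e j) (e (j + 1)) i :=
      (mem_evArc hW hP hK hj).2 ⟨x, hx, rfl⟩
    refine ⟨_, h1, shv i (crn y), (mem_evArc hW hP hK hl).2 ⟨y, hy, rfl⟩, ?_⟩
    exact (tpath_of_dpath (by exact h1.1) (dpath_of_clu hxy)).1
  · rintro ⟨p, hp, p', hp', h⟩
    obtain ⟨x, hx, rfl⟩ := (mem_evArc hW hP hK hj).1 hp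
    obtain ⟨y, hy, rfl⟩ := (mem_evArc hW hP hK hl).1 hp'
    obtain ⟨v', h1, h2⟩ := dpath_of_tpath (by exact hp.1) h
    have h3 : crn y = v' := by
      unfold shv at h1
      rw [Prod.mk.injEq, add_left_inj] at h1
      exact Prod.ext h1.1 h1.2
    exact ⟨x, y, hx, hy, clu_of_dpath hT (arc_mem hG hW hM hx) h2 y (arc_mem hG hW hM hy) h3⟩

/-- **the dictionary at the four marks** -/
theorem dict_four (hS : SC T (plane.glue T)) (hT : NoPinch T) (hb : ∀ i, Bd T (plane.glue T) (e i))
    (hC : Cyc4 (plane.glue T) e) (h1 : OneCycle T (plane.glue T) (e 0))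
    (hW : IsW T (plane.glue T) (Set.range e) w) :
    ∃ i : ℤ, (i = 0 ∨ i = 1) ∧ ∀ V : Finset (ℤ × ℤ),
      (∀ p ∈ T, pv (cA (p.1 + i, p.2)) ∈ V ∧ pv (cB (p.1 + i, p.2)) ∈ V) →
      1 - P T (fun ω => other (mate ω) w (e 3) = e 0) =
        perc half V (CrossT {p | (p.1 - i, p.2) ∈ T} (evArc (plane.glue T) (e 3) (e 0) i)
          (evArc (plane.glue T) (e 1) (e 2) i)) := by
  have hG := plane.glu T
  have hM := hW.marks hG hb hC h1
  have hw := hW.toWall
  obtain ⟨K, hP, hK, -⟩ := hW.part hG hb hC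
  have hκ := colouring_plane T
  obtain ⟨i, hi, he⟩ : ∃ i : ℤ, (i = 0 ∨ i = 1) ∧
      Even ((crn (rho (e 3))).1 + i + (crn (rho (e 3))).2) := by
    rcases Int.even_or_odd ((crn (rho (e 3))).1 + (crn (rho (e 3))).2) with h | h
    · exact ⟨0, Or.inl rfl, by rw [add_zero]; exact h⟩
    · refine ⟨1, Or.inr rfl, ?_⟩
      rw [Int.even_iff]
      rw [Int.odd_iff] at h
      omega
  have he1 : Even ((crn (rho (e 1))).1 + i + (crn (rho (e 1))).2) := by
    rw [even_iff_par] at he ⊢
    rw [← he, par_rho, par_rho]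
    have h2 := (hM.colours hG hκ 1).2.1
    rw [show (1 : Fin 4) + 2 = 3 by decide] at h2
    rw [h2]
  refine ⟨i, hi, fun V hV => ?_⟩
  rw [hM.P_other_zero hG hS hw, sub_sub_cancel]
  have hsub : T.image (bondi i) ⊆ edgesIn V := by
    intro f hf
    obtain ⟨t, ht, rfl⟩ := Finset.mem_image.1 hf
    exact bond_mem_edgesIn (hV t ht).1 (hV t ht).2
  have h3 := perc_crossT (evArc (plane.glue T) (e 3) (e 0) i) (evArc (plane.glue T) (e 1) (e 2) i) hsub
  refine Eq.trans ?_ h3.symm
  refine P_congr fun ω _ => ?_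
  have h4 := joins_iff_crossT hT hw hM hP hK he he1 ω
  rw [show (3 : Fin 4) + 1 = 0 by decide, show (1 : Fin 4) + 1 = 2 by decide] at h4
  exact h4

end Dict

end Full
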