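import Pool.Agent.Full.Dict.Four
import Pool.Agent.Full.End.Unique

/-!
# The observable at the fourth mark

`obs_four`: with the four ends `e 0, e 1, e 2, e 3` on the boundary the observable at `e 3` is
`(1 - p) + τ² p`, `p` the probability that the arcs `3` and `1` are joined.
-/

set_option autoImplicit false

namespace Full
open Function Relation Pool.Agent.Helper69.RSW

variable {τ : Type*} [DecidableEq τ] {T : Finset τ} {g w : Half τ → Half τ} {e : Fin 4 → Half τ}

omit [DecidableEq τ] in
lemma four_e3 : (3 : Fin 4) + 1 = 0 ∧ (3 : Fin 4) + 3 = 2 ∧ (3 : Fin 4) + 2 = 1 := by decide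

theorem Marks.P_other_zero (hM : Marks T g w e) (hG : Glu T g) (hS : SC T g) (hW : Wall T g w) :
    P T (fun ω => other (mate ω) w (e 3) = e 0) = 1 - P T (fun ω => Joins T g w ω e 3 1) := by
  rw [← P_compl T (fun ω => Joins T g w ω e 3 1), add_sub_cancel_left]
  refine P_congr fun ω _ => ?_
  have h1 := hM.other_eq_next (ω := ω) hG hS hW 3
  have h2 := hM.joins_iff_not (ω := ω) hG hS hW 3
  rw [four_e3.1] at h1 h2
  rw [four_e3.2.2] at h2
  rw [h1, h2, not_not]

theorem Marks.P_other_two (hM : Marks T g w e) (hG : Glu T g) (hS : SC T g) (hW : Wall T g w) :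
    P T (fun ω => other (mate ω) w (e 3) = e 2) = P T (fun ω => Joins T g w ω e 3 1) := by
  refine P_congr fun ω _ => ?_
  have h1 := hM.other_eq_prev (ω := ω) hG hS hW 3
  rwa [four_e3.2.1, four_e3.2.2] at h1

theorem Marks.P_other_one (hM : Marks T g w e) (hG : Glu T g) (hS : SC T g) (hW : Wall T g w) :
    P T (fun ω => other (mate ω) w (e 3) = e 1) = 0 := by
  rw [← P_false T]
  refine P_congr fun ω _ => ⟨fun h => ?_, False.elim⟩
  obtain ⟨κ, hκ⟩ := hS.exists_colouring
  have h1 := hM.other_cases (ω := ω) hG hW hκ 3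
  rw [four_e3.1, four_e3.2.1, h] at h1
  rcases h1 with h1 | h1
  · exact absurd (hM.inj h1) (by decide)
  · exact absurd (hM.inj h1) (by decide)

lemma exp_eq_tau : Complex.exp (2 * Real.pi * Complex.I / 3) = tau := by
  have h1 : (2 * Real.pi * Complex.I / 3 : ℂ) = ((Real.pi - Real.pi / 3 : ℝ) : ℂ) * Complex.I := by
    push_cast
    ring
  rw [h1, Complex.exp_mul_I, ← Complex.ofReal_cos, ← Complex.ofReal_sin, Real.cos_pi_sub,
    Real.sin_pi_sub, Real.cos_pi_div_three, Real.sin_pi_div_three]
  unfold tau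
  push_cast
  ring

/-- **the observable at the fourth mark** -/
theorem Marks.obs_four (hM : Marks T g w e) (hG : Glu T g) (hS : SC T g) (hW : Wall T g w) :
    obs T w (e 3) ![e 0, e 1, e 2] =
      (1 - (P T (fun ω => Joins T g w ω e 3 1) : ℂ)) * vert 0 +
        (P T (fun ω => Joins T g w ω e 3 1) : ℂ) * vert 2 := by
  unfold obs
  rw [exp_eq_tau, Fin.sum_univ_three]
  simp only [Matrix.cons_val_zero, Matrix.cons_val_one, Matrix.cons_val]
  rw [hM.P_other_zero hG hS hW, hM.P_other_one hG hS hW, hM.P_other_two hG hS hW]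
  simp [vert]
  ring

end Full
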