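import Pool.Agent.Full.Dict.Cyc
import Pool.Agent.Full.Geo.Free
import Pool.Agent.Full.Disc.SlabSC

/-!
# (S5): the dictionary at the four marks for shapes
-/

set_option autoImplicit false

namespace Full
open Function Relation H47Perc

namespace Shape
variable {S : Shape} {n : ℕ} {s : S.Q × Bool → ℕ}

/-- the fine region has no pinch points -/
theorem noPinch (hS : S.Ok) (hs : S.Small2 n s) : NoPinch (S.T n s) := by
  intro i j
  constructor
  · intro h1 h2
    obtain ⟨a, ha⟩ := mem_T.1 h1
    obtain ⟨b, hb⟩ := mem_T.1 h2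
    have ha' := mem_room.1 ha
    have hb' := mem_room.1 hb
    simp only at ha' hb'
    rcases nb_room hS hs ha hb (by simp) (by simp) with rfl | h | h
    · exact Or.inl (mem_T.2 ⟨a, mem_room.2 ⟨⟨by simp only; omega, by simp only; omega⟩, by
        simp only; omega, by simp only; omega⟩⟩)
    · have e := on_ft (n := n) hS h
      obtain ⟨k, ⟨-, h3, h4⟩ | ⟨-, h3, h4⟩⟩ := link_in hS hs h
      · exact Or.inr (mem_T.2 ⟨b, mem_room.2 ⟨⟨by simp only; omega, by simp only; omega⟩, by
          simp only; omega, by simp only; omega⟩⟩)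
      · exact Or.inl (mem_T.2 ⟨a, mem_room.2 ⟨⟨by simp only; omega, by simp only; omega⟩, by
          simp only; omega, by simp only; omega⟩⟩)
    · have e := on_ft (n := n) hS h
      omega
  · intro h1 h2
    obtain ⟨a, ha⟩ := mem_T.1 h1
    obtain ⟨b, hb⟩ := mem_T.1 h2
    have ha' := mem_room.1 ha
    have hb' := mem_room.1 hb
    simp only at ha' hb'
    rcases nb_room hS hs ha hb (by simp) (by simp) with rfl | h | h
    · exact Or.inl (mem_T.2 ⟨a, mem_room.2 ⟨⟨by simp only; omega, by simp only; omega⟩, by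
        simp only; omega, by simp only; omega⟩⟩)
    · have e := on_ft (n := n) hS h
      obtain ⟨k, ⟨-, h3, h4⟩ | ⟨-, h3, h4⟩⟩ := link_in hS hs h
      · exact Or.inr (mem_T.2 ⟨b, mem_room.2 ⟨⟨by simp only; omega, by simp only; omega⟩, by
          simp only; omega, by simp only; omega⟩⟩)
      · exact Or.inl (mem_T.2 ⟨a, mem_room.2 ⟨⟨by simp only; omega, by simp only; omega⟩, by
          simp only; omega, by simp only; omega⟩⟩)
    · have e := on_ft (n := n) hS h
      omega

lemma mul_gap (n : ℕ) {a b : ℤ} (h : a < b) : (n : ℤ) * a + n ≤ n * b := by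
  have h1 : (n : ℤ) * (a + 1) ≤ n * b := mul_le_mul_of_nonneg_left (by omega) (by positivity)
  linarith

/-- the marks are boundary half edges -/
theorem bd_mark (hS : S.Ok) (m : S.Marks) (hm : m.Ok) (hs : S.Small n s) {σ : Fin 4 → ℕ}
    (hσ : ∀ j, 4 * σ j ≤ n) (j : Fin 4) : Bd (S.T n s) (plane.glue (S.T n s)) (m.e n σ j) := by
  have hs2 := hs.two
  have hn := hs.1
  set r : S.Q := .inl (m.room j) with hr
  have hl : S.xl r < m.x j := hm.left j
  have hrr : m.x j + 1 < S.xr r := hm.right j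
  have g1 := mul_gap n hl
  have g2 := mul_gap n hrr
  have g3 : (n : ℤ) * (m.x j + 1) = n * m.x j + n := by ring
  have k1 := hs.2 (r, false)
  have k2 := hs.2 (r, true)
  have k3 := hσ j
  have hfl : S.fl n s r = n * S.xl r + s (r, false) := rfl
  have hfr : S.fr n s r = n * S.xr r + s (r, true) := rfl
  have hyy := fb_lt_ft hS hn r
  have hX1 : S.fl n s r ≤ n * m.x j + σ j := by
    rw [hfl]; zify at k1 k3; omega
  have hX2 : n * m.x j + σ j < S.fr n s r := by
    rw [hfr]; zify at k2 k3; omega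
  have hlink : ∀ k, S.Att k (m.room j) (m.top j) →
      n * m.x j + σ j < S.fl n s (.inr k) ∨ S.fr n s (.inr k) ≤ n * m.x j + σ j := by
    intro k hk
    have hflk : S.fl n s (.inr k) = n * S.xl (.inr k) + s (.inr k, false) := rfl
    have hfrk : S.fr n s (.inr k) = n * S.xr (.inr k) + s (.inr k, true) := rfl
    have k4 := hs.2 (.inr k, true)
    rcases hm.wall j k hk with h | h
    · left
      have := mul_gap n h
      rw [hflk]; zify at k3; omega
    · right
      have := mul_gap n h
      rw [hfrk]; zify at k4; omega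
  have hdef : m.e n σ j = ((n * m.x j + σ j, m.fy n j), m.dir j) := rfl
  cases htop : m.top j
  · have e1 : m.fy n j = S.fb n r := by unfold Marks.fy; rw [htop]; rfl
    have e2 : m.dir j = Dir.S := by unfold Marks.dir; rw [htop]; rfl
    rw [hdef, e1, e2]
    have hmem : (n * m.x j + σ j, S.fb n r) ∈ S.room n s r :=
      mem_room.2 ⟨⟨hX1, hX2⟩, le_rfl, by simp only; omega⟩
    refine ⟨mem_T.2 ⟨r, hmem⟩, ?_⟩
    by_contra hne
    obtain ⟨-, h2⟩ := glue_ne_iff'.1 hne
    have h3 : ((n * m.x j + σ j, S.fb n r) : ℤ × ℤ) + Dir.vec .S = (n * m.x j + σ j, S.fb n r - 1) := by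
      ext <;> simp [Dir.vec, sub_eq_add_neg]
    rw [h3] at h2
    obtain ⟨q, hq⟩ := mem_T.1 h2
    have hq' := mem_room.1 hq
    simp only at hq'
    rcases nb_room hS hs2 hmem hq (by simp) (by simp) with rfl | h | h
    · omega
    · have := on_ft (n := n) hS h
      omega
    · rcases q with r' | k
      · exact absurd h id
      · have hk : S.Att k (m.room j) (m.top j) := by rw [htop]; exact h
        rcases hlink k hk with h5 | h5 <;> omega
  · have e1 : m.fy n j = S.ft n r - 1 := by unfold Marks.fy; rw [htop]; rfl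
    have e2 : m.dir j = Dir.N := by unfold Marks.dir; rw [htop]; rfl
    rw [hdef, e1, e2]
    have hmem : (n * m.x j + σ j, S.ft n r - 1) ∈ S.room n s r :=
      mem_room.2 ⟨⟨hX1, hX2⟩, by simp only; omega, by simp only; omega⟩
    refine ⟨mem_T.2 ⟨r, hmem⟩, ?_⟩
    by_contra hne
    obtain ⟨-, h2⟩ := glue_ne_iff'.1 hne
    have h3 : ((n * m.x j + σ j, S.ft n r - 1) : ℤ × ℤ) + Dir.vec .N = (n * m.x j + σ j, S.ft n r) := by
      ext <;> simp [Dir.vec]
    rw [h3] at h2
    obtain ⟨q, hq⟩ := mem_T.1 h2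
    have hq' := mem_room.1 hq
    simp only at hq'
    rcases nb_room hS hs2 hmem hq (by simp) (by simp) with rfl | h | h
    · omega
    · rcases q with r' | k
      · exact absurd h id
      · have hk : S.Att k (m.room j) (m.top j) := by rw [htop]; exact h
        rcases hlink k hk with h5 | h5 <;> omega
    · have := on_ft (n := n) hS h
      omega

theorem sh_small {S : Shape} {n : ℕ} (hn : 8 ≤ n) (a : Sh S n) : S.Small n a.s :=
  ⟨hn, fun v => by
    have := (a.1 v).2
    show 4 * ((a.1 v : ℕ)) ≤ n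
    omega⟩

theorem sh_sigma {S : Shape} {n : ℕ} (a : Sh S n) (j : Fin 4) : 4 * a.σ j ≤ n := by
  have := (a.2 j).2
  show 4 * ((a.2 j : ℕ)) ≤ n
  omega

end Shape

open Shape

/-- **(S5)** from the cyclic order of the marks and the connectedness of the fine region -/
theorem s5_of_geo
    (htc : ∀ (S : Shape), S.Ok → ∀ (n : ℕ) (s : S.Q × Bool → ℕ), S.Small n s → ∀ t ∈ S.T n s,
      ∀ u ∈ S.T n s, TConn (S.T n s) (plane.glue (S.T n s)) t u)
    (hcy : ∀ (S : Shape), S.Ok → ∀ m : S.Marks, m.Ok → ∀ (n : ℕ) (s : S.Q × Bool → ℕ), S.Small n s →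
      ∀ σ : Fin 4 → ℕ, (∀ j, 4 * σ j ≤ n) → S.CycOk m n s σ) : S5 := by
  intro S hS m hm n hn a hw
  have hs := sh_small hn a
  have hsc : SC (S.T n a.s) (plane.glue (S.T n a.s)) := plane_sc (Shape.noHole hS hs.two)
  obtain ⟨i, hi, h⟩ := dict4 hsc (htc S hS n a.s hs) (noPinch hS hs.two)
    (hcy S hS m hm n a.s hs a.σ (sh_sigma a)) (bd_mark hS m hm hs (sh_sigma a) 0) hw.choose_spec
  refine ⟨i, hi, fun V hV => ?_⟩
  rw [← h V hV]
  unfold P4
  rw [dif_pos hw]

end Full
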