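import Pool.Agent.Full.Dict.Main

/-!
# The dictionary for the fine region of a shape

`Dict.noPinch`: the fine region of a shape is unpinched.  `Dict.dict_shape`: the dictionary at the four marks of a
shape (the region is connected and simply connected, the marks are boundary half edges in cyclic order).
-/

set_option autoImplicit false

namespace Full
open Function Relation

namespace Dict
variable {S : Shape} {n : ℕ} {s : S.Q × Bool → ℕ}

lemma mem_shape {t : ℤ × ℤ} : t ∈ S.T n s ↔ ∃ q, t ∈ S.room n s q := by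
  unfold Shape.T
  rw [Finset.mem_biUnion]
  exact ⟨fun ⟨q, _, h⟩ => ⟨q, h⟩, fun ⟨q, h⟩ => ⟨q, Finset.mem_univ _, h⟩⟩

lemma mem_room {q : S.Q} {i j : ℤ} : (i, j) ∈ S.room n s q ↔
    (S.fl n s q ≤ i ∧ i < S.fr n s q) ∧ S.fb n q ≤ j ∧ j < S.ft n q := mem_box

/-- coarse inequalities give fine inequalities -/
lemma mul_lt {n : ℕ} (hn : 8 ≤ n) {a b : ℤ} (h : a < b) : n * a + n ≤ n * b := by
  have h1 : (n : ℤ) * (a + 1) ≤ n * b := mul_le_mul_of_nonneg_left (by omega) (by omega)
  linarith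

/-- neighbouring tiles are in the same room or in rooms on top of each other -/
lemma near_room (hS : S.Ok) (hn : 8 ≤ n) (hs : ∀ v, 4 * s v ≤ n) {a b : S.Q} {i j i' j' : ℤ}
    (ht : (i, j) ∈ S.room n s a) (hu : (i', j') ∈ S.room n s b) (h1 : i' ≤ i + 1) (h2 : i ≤ i' + 1)
    (h3 : j' ≤ j + 1) (h4 : j ≤ j' + 1) : a = b ∨ S.On a b ∨ S.On b a := by
  by_contra hcon
  push Not at hcon
  obtain ⟨c1, c2, c3⟩ := hcon
  rw [mem_room] at ht hu
  unfold Shape.fl Shape.fr Shape.fb Shape.ft at ht hu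
  have s1 := hs (a, false)
  have s2 := hs (a, true)
  have s3 := hs (b, false)
  have s4 := hs (b, true)
  have e1 : (4 : ℤ) * s (a, false) ≤ n := by exact_mod_cast s1
  have e2 : (4 : ℤ) * s (a, true) ≤ n := by exact_mod_cast s2
  have e3 : (4 : ℤ) * s (b, false) ≤ n := by exact_mod_cast s3
  have e4 : (4 : ℤ) * s (b, true) ≤ n := by exact_mod_cast s4
  have hn' : (8 : ℤ) ≤ n := by exact_mod_cast hn
  rcases hS.sep a b c1 c2 c3 with h | h | h | h
  · have := mul_lt hn h
    omega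
  · have := mul_lt hn h
    omega
  · have := mul_lt hn h
    omega
  · have := mul_lt hn h
    omega

/-- the room below or above: one of the two is strictly inside the other one -/
lemma on_room (hS : S.Ok) (hn : 8 ≤ n) (hs : ∀ v, 4 * s v ≤ n) {a b : S.Q} (h : S.On a b) :
    S.ft n a = S.fb n b ∧ ((S.fl n s a < S.fl n s b ∧ S.fr n s b < S.fr n s a) ∨
      (S.fl n s b < S.fl n s a ∧ S.fr n s a < S.fr n s b)) := by
  have hn' : (8 : ℤ) ≤ n := by exact_mod_cast hn
  have s1 := hs (a, false)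
  have s2 := hs (a, true)
  have s3 := hs (b, false)
  have s4 := hs (b, true)
  have e1 : (4 : ℤ) * s (a, false) ≤ n := by exact_mod_cast s1
  have e2 : (4 : ℤ) * s (a, true) ≤ n := by exact_mod_cast s2
  have e3 : (4 : ℤ) * s (b, false) ≤ n := by exact_mod_cast s3
  have e4 : (4 : ℤ) * s (b, true) ≤ n := by exact_mod_cast s4
  refine ⟨by unfold Shape.ft Shape.fb; rw [hS.on_y a b h], ?_⟩
  rcases a with r | k <;> rcases b with r' | k'
  · exact absurd h (by simp [Shape.On])
  · left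
    have h' : S.dn k' = r := h
    have h1 := mul_lt hn (hS.dn_l k')
    have h2 := mul_lt hn (hS.dn_r k')
    rw [h'] at h1 h2
    unfold Shape.fl Shape.fr
    constructor <;> omega
  · right
    have h' : S.up k = r' := h
    have h1 := mul_lt hn (hS.up_l k)
    have h2 := mul_lt hn (hS.up_r k)
    rw [h'] at h1 h2
    unfold Shape.fl Shape.fr
    constructor <;> omega
  · exact absurd h (by simp [Shape.On])

/-- **the fine region is unpinched** -/
theorem noPinch (hS : S.Ok) (hn : 8 ≤ n) (hs : ∀ v, 4 * s v ≤ n) : NoPinch (S.T n s) := by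
  intro i j
  simp only [mem_shape]
  constructor
  · rintro ⟨a, ha⟩ ⟨b, hb⟩
    rcases near_room hS hn hs ha hb (by omega) (by omega) (by omega) (by omega) with h | h | h
    · subst h
      rw [mem_room] at ha hb
      exact Or.inl ⟨a, mem_room.2 ⟨⟨by omega, by omega⟩, by omega, by omega⟩⟩
    · obtain ⟨h1, h2⟩ := on_room hS hn hs h
      rw [mem_room] at ha hb
      rcases h2 with h2 | h2
      · exact Or.inl ⟨a, mem_room.2 ⟨⟨by omega, by omega⟩, by omega, by omega⟩⟩
      · exact Or.inr ⟨b, mem_room.2 ⟨⟨by omega, by omega⟩, by omega, by omega⟩⟩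
    · obtain ⟨h1, h2⟩ := on_room hS hn hs h
      rw [mem_room] at ha hb
      omega
  · rintro ⟨a, ha⟩ ⟨b, hb⟩
    rcases near_room hS hn hs ha hb (by omega) (by omega) (by omega) (by omega) with h | h | h
    · subst h
      rw [mem_room] at ha hb
      exact Or.inl ⟨a, mem_room.2 ⟨⟨by omega, by omega⟩, by omega, by omega⟩⟩
    · obtain ⟨h1, h2⟩ := on_room hS hn hs h
      rw [mem_room] at ha hb
      rcases h2 with h2 | h2
      · exact Or.inl ⟨a, mem_room.2 ⟨⟨by omega, by omega⟩, by omega, by omega⟩⟩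
      · exact Or.inr ⟨b, mem_room.2 ⟨⟨by omega, by omega⟩, by omega, by omega⟩⟩
    · obtain ⟨h1, h2⟩ := on_room hS hn hs h
      rw [mem_room] at ha hb
      omega

lemma small_s {a : Shape.Sh S n} (v : S.Q × Bool) : 4 * a.s v ≤ n := by
  have h : (a.1 v : ℕ) < n / 4 := (a.1 v).2
  have h1 : a.s v = (a.1 v : ℕ) := rfl
  rw [h1]
  omega

open H47Perc Shape in
/-- **the dictionary at the four marks of a shape** -/
theorem dict_shape (hS : S.Ok) (m : S.Marks) (hn : 8 ≤ n) (a : Shape.Sh S n) (hw : ∃ w, IsW4 m n a w)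
    (hsc : SC (S.T n a.s) (plane.glue (S.T n a.s)))
    (htc : ∀ t ∈ S.T n a.s, ∀ u ∈ S.T n a.s, TConn (S.T n a.s) (plane.glue (S.T n a.s)) t u)
    (hb : ∀ j, Bd (S.T n a.s) (plane.glue (S.T n a.s)) (m.e n a.σ j)) (hC : S.CycOk m n a.s a.σ) :
    ∃ i : ℤ, (i = 0 ∨ i = 1) ∧ ∀ V : Finset (ℤ × ℤ),
      (∀ p ∈ S.T n a.s, pv (cA (p.1 + i, p.2)) ∈ V ∧ pv (cB (p.1 + i, p.2)) ∈ V) →
      1 - P4 m n a = perc half V (CrossT {p | (p.1 - i, p.2) ∈ S.T n a.s}
        (evArc (plane.glue (S.T n a.s)) (m.e n a.σ 3) (m.e n a.σ 0) i)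
        (evArc (plane.glue (S.T n a.s)) (m.e n a.σ 1) (m.e n a.σ 2) i)) := by
  have h1 : OneCycle (S.T n a.s) (plane.glue (S.T n a.s)) (m.e n a.σ 0) := by
    intro x hx
    obtain ⟨k, -, hk⟩ := (plane.glu (S.T n a.s)).next_trans hsc (hb 0) hx (htc _ (hb 0).1 _ hx.1)
    exact ⟨k, hk⟩
  unfold P4
  rw [dif_pos hw]
  exact dict_four hsc (noPinch hS hn small_s) hb hC h1 hw.choose_spec

end Dict

end Full
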