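import Pool.Agent.Full.Def.Surf

/-!
# The two sides of a strand

A corner is represented by a half edge, namely by its tail; the corner at the head of `x` is `rho x`.
`Touch` = the same corner, or the two ends of the diagonal of a tile; `Wire` = two corners joined by a
closed wall.  Along a strand all the corners on the left side are connected, and all the corners on the
right side (`sides_other`).
-/

set_option autoImplicit false

namespace Full
open Function Relation

variable {τ : Type*}

/-- two half edges which start at the same corner -/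
def Same (g : Half τ → Half τ) (x y : Half τ) : Prop := g x ≠ x ∧ y = rho (g x)

/-- the two ends of the diagonal of a tile of `T` -/
def Diag [DecidableEq τ] (T ω : Finset τ) (x y : Half τ) : Prop :=
  x.1 ∈ T ∧ mate ω x = rho x ∧ y = rho (rho x)

/-- corners joined by a closed wall: `w` joins the boundary half edge `x` with the next one; `x` starts at
the first corner, the second corner is the head of `w x` -/
def Wire (T : Finset τ) (g w : Half τ → Half τ) (x y : Half τ) : Prop :=
  Bd T g x ∧ w x = next g x ∧ y = rho (w x)

/-- the clusters of the corners: the diagonals of the configuration -/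
def Clu [DecidableEq τ] (T : Finset τ) (g : Half τ → Half τ) (ω : Finset τ) : Half τ → Half τ → Prop :=
  EqvGen fun x y => Same g x y ∨ Diag T ω x y

/-- the clusters of the corners, with the wired walls -/
def CluW [DecidableEq τ] (T : Finset τ) (g w : Half τ → Half τ) (ω : Finset τ) :
    Half τ → Half τ → Prop :=
  EqvGen fun x y => (Same g x y ∨ Diag T ω x y) ∨ Wire T g w x y

/-- the wired parts of the boundary -/
def Wd (T : Finset τ) (g w : Half τ → Half τ) : Half τ → Half τ → Prop :=
  EqvGen fun x y => Same g x y ∨ Wire T g w x y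

section basic
variable {T : Finset τ} {g w : Half τ → Half τ}

/-- the head of a boundary half edge is the tail of the next one -/
lemma eqv_next {r : Half τ → Half τ → Prop} (hG : Glu T g) (hr : ∀ x y, Same g x y → r x y)
    {x : Half τ} (hx : g x = x) : EqvGen r (next g x) (rho x) := by
  have hc : Corner g (fun x => Quot.mk r x) := by
    intro x hx
    have h1 : r (g x) (rho x) := hr _ _ ⟨fun h => hx (by rw [hG.inv] at h; exact h.symm), by rw [hG.inv]⟩
    exact Quot.sound h1
  exact Quot.eqvGen_exact (hG.corner_next hc hx)

lemma eqv_glue {r : Half τ → Half τ → Prop} (hG : Glu T g) (hr : ∀ x y, Same g x y → r x y)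
    {x : Half τ} (hx : g x ≠ x) : EqvGen r (rho x) (g x) ∧ EqvGen r x (rho (g x)) := by
  refine ⟨?_, EqvGen.rel _ _ (hr _ _ ⟨hx, rfl⟩)⟩
  have h1 : r (g x) (rho x) := hr _ _ ⟨fun h => hx (by rw [hG.inv] at h; exact h.symm), by rw [hG.inv]⟩
  exact EqvGen.symm _ _ (EqvGen.rel _ _ h1)

end basic

section side
variable [DecidableEq τ] {T : Finset τ} {g w : Half τ → Half τ} {ω : Finset τ}

/-- inside a tile: entering through `x` and leaving through `mate ω x` -/
lemma side_mate {x : Half τ} (hx : x.1 ∈ T) :
    CluW T g w ω x (rho (mate ω x)) ∧ CluW T g w ω (rho x) (mate ω x) := by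
  rcases mate_cases ω x with h | h
  · constructor
    · rw [h]
      exact EqvGen.rel _ _ (Or.inl (Or.inr ⟨hx, h, rfl⟩))
    · rw [h]
      exact EqvGen.refl _
  · constructor
    · rw [h]
      exact EqvGen.refl _
    · have h2 : mate ω (mate ω x) = rho (mate ω x) := by rw [mate_mate, h]
      have h3 : rho x = rho (rho (mate ω x)) := by rw [h]
      rw [h3]
      exact EqvGen.symm _ _ (EqvGen.rel _ _ (Or.inl (Or.inr ⟨by rw [mate_fst]; exact hx, h2, rfl⟩)))

/-- through a glued side, or around the wall: leaving through `y`, entering through `w y` -/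
lemma side_wall (hG : Glu T g) (hW : Wall T g w) {y : Half τ} (hy : y.1 ∈ T) (hwy : w y ≠ y) :
    CluW T g w ω (rho y) (w y) ∧ CluW T g w ω y (rho (w y)) := by
  have hr : ∀ x y, Same g x y → (Same g x y ∨ Diag T ω x y) ∨ Wire T g w x y :=
    fun x y h => Or.inl (Or.inl h)
  by_cases hgy : g y = y
  · rcases hW.near y ⟨hy, hgy⟩ with h | h | h
    · exact absurd h hwy
    · have h1 := eqv_next hG hr hgy
      constructor
      · rw [h]
        exact EqvGen.symm _ _ h1
      · exact EqvGen.rel _ _ (Or.inr ⟨⟨hy, hgy⟩, h, rfl⟩)
    · -- `y = next (w y)`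
      have hu : g (w y) = w y := by
        by_contra hne
        have h2 := hW.ext (w y) hne
        rw [hW.inv] at h2
        apply hne
        have h3 := congrArg g h2
        rw [hG.inv, hgy] at h3
        rw [← h3, hgy]
      have huT : (w y).1 ∈ T := hW.mem y hy
      have h1 := eqv_next hG hr hu
      rw [← h] at h1
      constructor
      · have h2 : Wire T g w (w y) (rho (w (w y))) := ⟨⟨huT, hu⟩, by rw [hW.inv]; exact h, rfl⟩
        rw [hW.inv] at h2
        exact EqvGen.symm _ _ (EqvGen.rel _ _ (Or.inr h2))
      · exact h1
  · rw [hW.ext y hgy]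
    exact eqv_glue hG hr hgy

/-- **the two sides of a strand**: the corner on the left of the beginning is connected with the corner
on the left of the end, and the same on the right -/
theorem sides_other (hG : Glu T g) (hW : Wall T g w) {e : Half τ} (he : Bd T w e) :
    CluW T g w ω e (rho (other (mate ω) w e)) ∧ CluW T g w ω (rho e) (other (mate ω) w e) := by
  have hWG : Glu T w := hW.toGlu
  have hp := hWG.periodic ω e
  have htwo := hWG.two ω
  have hev := htwo.even he.2 hp
  have hpos := Two.period_pos hp
  set K := minimalPeriod (w ∘ mate ω) e / 2 with hK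
  have hmem : ∀ k, ((w ∘ mate ω)^[k] e).1 ∈ T := by
    intro k
    induction k with
    | zero => exact he.1
    | succ k ih =>
      rw [iterate_succ_apply']
      exact hWG.mem _ ih
  have key : ∀ k, k < K → CluW T g w ω e ((w ∘ mate ω)^[k] e) ∧
      CluW T g w ω (rho e) (rho ((w ∘ mate ω)^[k] e)) := by
    intro k
    induction k with
    | zero => intro _; exact ⟨EqvGen.refl _, EqvGen.refl _⟩
    | succ k ih =>
      intro hk
      obtain ⟨h1, h2⟩ := ih (by omega)
      set x := (w ∘ mate ω)^[k] e with hx
      have hs : (w ∘ mate ω)^[k + 1] e = w (mate ω x) := by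
        rw [iterate_succ_apply']; rfl
      have hne : w (mate ω x) ≠ mate ω x := by
        intro h3
        -- then `x (k+1)` is a fixed point
        have h4 : w ((w ∘ mate ω)^[k + 1] e) = (w ∘ mate ω)^[k + 1] e := by
          rw [hs, h3, h3]
        have h5 := htwo.g_iter he.2 (k := k + 1) (by omega)
        rw [h4] at h5
        have h6 := (iterate_eq_iterate_iff_of_lt_minimalPeriod (f := w ∘ mate ω) (x := e)
          (by omega) (by omega)).1 h5
        omega
      obtain ⟨m1, m2⟩ := side_mate (T := T) (g := g) (w := w) (ω := ω) (x := x) (hmem k)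
      obtain ⟨w1, w2⟩ := side_wall (ω := ω) hG hW (y := mate ω x) (hmem k) hne
      rw [hs]
      exact ⟨(h1.trans _ _ _ m1).trans _ _ _ w1, (h2.trans _ _ _ m2).trans _ _ _ w2⟩
  have hK1 : 1 ≤ K := by omega
  obtain ⟨h1, h2⟩ := key (K - 1) (by omega)
  set x := (w ∘ mate ω)^[K - 1] e with hx
  have hs : other (mate ω) w e = w (mate ω x) := by
    unfold other
    rw [← hK, show K = K - 1 + 1 by omega, iterate_succ_apply']
    rfl
  have hfix : w (other (mate ω) w e) = other (mate ω) w e := htwo.other_fix he.2 hp
  have hs2 : other (mate ω) w e = mate ω x := by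
    have h3 := hfix
    rw [hs, hW.inv] at h3
    rw [hs]; exact h3.symm
  obtain ⟨m1, m2⟩ := side_mate (T := T) (g := g) (w := w) (ω := ω) (x := x) (hmem _)
  rw [hs2]
  exact ⟨h1.trans _ _ _ m1, h2.trans _ _ _ m2⟩

end side

end Full
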